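import Pool.Agent.helper79.HT.Main

/-!
Final theorem (MP_e6cd9b_lc).
-/

set_option autoImplicit false

namespace Pool.Agent.helper79.HT

theorem construct {B : Type} [CompleteBooleanAlgebra B] (hccc : CCC B) {I J : Type}
    [Uncountable J] (hIJ : Cardinal.mk J < Cardinal.mk I)
    {cc : (I ⊕ J) × ℕ → B} (hcc : Cohen cc)
    {q : Ultrafilter Blk} (hq : IdemQ q)
    {Out : ℕ → Fin 3 → (ℕ → ℕ) → ℕ → Prop} {K : ℕ → Bool} {E : ℕ → ℕ → Bool}
    (hfree : ∀ X ∈ relFree q Out, ∀ (N : ℕ) (κ : Bool) (ε : ℕ → Bool),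
        ∃ z ∈ X, N ≤ z ∧ K z = κ ∧ ∀ x < N, E x z = ε x)
    {e : I → J → BU Blk B} (hL : ∀ i i' j, e i j * e i' j = e i j)
    (hR : ∀ i j j', e i j * e i j' = e i j')
    (hA : ∀ i j, ∀ A ∈ relSets q Out, (e i j).val (fun h => bv (h ∈ A)) = ⊤)
    (hm : ∀ i j, ∀ X ∈ relPtr q Out, MinLike q X → Typ K E (e i j) X false
      (fun n => cc (Sum.inl i, n)) {T | ∃ i', i' ≠ i ∧ T = fun n => cc (Sum.inl i', n)})
    (hn : ∀ i j, ∀ X ∈ relPtr q Out, NonMin q X → Typ K E (e i j) X true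
      (fun n => cc (Sum.inr j, n)) {T | ∃ j', j' ≠ j ∧ T = fun n => cc (Sum.inr j', n)})
    (c : Blk → ℕ) (ℓ : ℕ) (hc : ∀ w, c w < ℓ) :
    ∃ (s : ℕ → Node) (c0 : ℕ), (∀ n, s n <:+ s (n + 1)) ∧ (∀ n, WF (s n)) ∧
      (∀ n, ∀ w ∈ nes (s n), c w = c0) ∧ (∀ n, ∃ g ∈ s (n + 1), g ∈ Big n) ∧
      ∀ k, ∃ P', KillP q K E (Out k) P' ∧ ∀ m ≥ k + 1, P' (s m) := by
  classical
  obtain ⟨i, j, hij⟩ := typical hccc hIJ e c
  set p := e i j with hp
  have hpS : p ∈ relS B q Out := fun A hA' => hA i j A hA'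
  have hB := fun k => base_of (B := B) hq hfree k
  have htop : (⊤ : B) ≠ ⊥ := by
    have := hcc.1 ∅ (fun _ => true)
    simpa using this
  -- initial colour
  obtain ⟨c0, hc0⟩ : ∃ c0, p.val (fun t => bv (c (1 * t) = c0)) ≠ ⊥ := by
    by_contra hcon
    push Not at hcon
    have h1 : (⊤ : B) ≤ p.val (fun t => ⨅ v ∈ List.range ℓ, (bv (c (1 * t) = v))ᶜ) := by
      refine p.le_biInf (List.range ℓ) (fun v t => (bv (c (1 * t) = v))ᶜ) fun v _ => ?_
      rw [p.compl, hcon v, compl_bot]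
    obtain ⟨t, ht⟩ := p.exists_ne htop h1
    apply ht
    refine le_bot_iff.1 (inf_le_right.trans ((iInf₂_le (c (1 * t))
      (List.mem_range.2 (hc _))).trans ?_))
    rw [bv_true rfl, compl_top]
  -- one stage
  have hstage : ∀ (k : ℕ) (σ : Node) (b : B) (P : Node → Prop), Pers (relS B q Out) P →
      St c c0 [p] P σ b → ∃ σ' b' P', σ <:+ σ' ∧ Pers (relS B q Out) P' ∧ (∀ τ, P' τ → P τ) ∧
        St c c0 [p] P' σ' b' ∧ KillP q K E (Out k) P' ∧ ∃ g ∈ σ', g ∈ Big k := by
    intro k σ b P hP hst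
    have hpp : p * p = p := hL i i j
    obtain ⟨h, b0, hb0, hbD, hst0⟩ := step hP hpS hst (List.mem_singleton.2 rfl)
      (Rs' := [p]) (fun s hs => hs) (by simp [hpp]) (fun h => bv (h ∈ Big k))
      (by rw [(hB k).big k p hpS]; exact le_top)
    have hbig : h ∈ Big k := of_le_bv hst0.ne hbD
    set W : Finset Blk := (fsl (h :: σ)).toFinset with hW
    obtain ⟨i', hi', b1, hb1, hb1', hw1⟩ := (hij W c0 b0 hst0.ne (fun w hw =>
      hst0.alive p (List.mem_singleton.2 rfl) w (List.mem_toFinset.1 hw))).1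
    obtain ⟨j', hj', b2, hb2, hb2', hw2⟩ := (hij W c0 b1 hb1' (fun w hw =>
      hb1.trans (hst0.alive p (List.mem_singleton.2 rfl) w (List.mem_toFinset.1 hw)))).2
    set r : Bool → BU Blk B := fun κ => if κ = true then e i j' else e i' j with hr
    set al : Bool → ℕ → B := fun κ n => if κ = true then cc (Sum.inr j, n) else cc (Sum.inl i, n)
      with hal
    set al' : Bool → ℕ → B :=
      fun κ n => if κ = true then cc (Sum.inr j', n) else cc (Sum.inl i', n) with hal'
    have hC : Ctr q K E (relS B q Out) (Out k) p r al al' := by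
      refine ⟨hpS, ?_, hpp, ?_, ?_, ?_, ?_⟩
      · intro κ
        cases κ
        · exact fun A hA' => hA i' j A hA'
        · exact fun A hA' => hA i j' A hA'
      · intro κ
        cases κ
        · left; exact hL i i' j
        · right; exact hR i j j'
      · intro κ
        cases κ
        · right; exact hL i' i j
        · left; exact hR i j' j
      · intro i0 N τ hτ
        have hX : ptr q (Out k i0) N τ ∈ relPtr q Out := ⟨k, i0, N, τ, hτ, rfl⟩
        rcases minLike_or_nonMin hq (X := ptr q (Out k i0) N τ) with h1 | h1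
        · refine ⟨false, ?_, ?_⟩
          · have h2 := hm i j _ hX h1
            refine ⟨h2.1, h2.2.1, fun T' hT' => ?_, h2.2.2.2⟩
            rw [Set.mem_singleton_iff] at hT'
            subst hT'
            exact h2.2.2.1 _ ⟨i', hi', rfl⟩
          · have h2 := hm i' j _ hX h1
            refine ⟨h2.1, h2.2.1, fun T' hT' => ?_, h2.2.2.2⟩
            rw [Set.mem_singleton_iff] at hT'
            subst hT'
            exact h2.2.2.1 _ ⟨i, hi'.symm, rfl⟩
        · refine ⟨true, ?_, ?_⟩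
          · have h2 := hn i j _ hX h1
            refine ⟨h2.1, h2.2.1, fun T' hT' => ?_, h2.2.2.2⟩
            rw [Set.mem_singleton_iff] at hT'
            subst hT'
            exact h2.2.2.1 _ ⟨j', hj', rfl⟩
          · have h2 := hn i j' _ hX h1
            refine ⟨h2.1, h2.2.1, fun T' hT' => ?_, h2.2.2.2⟩
            rw [Set.mem_singleton_iff] at hT'
            subst hT'
            exact h2.2.2.1 _ ⟨j, hj'.symm, rfl⟩
      · intro b hb κ
        cases κ
        · exact cohen_indep hcc (fun n => (Sum.inl i, n)) (fun n => (Sum.inl i', n))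
            (fun m n h => by simpa using h) (fun m n h => by simpa using h)
            (fun m n h => by simp at h; exact hi' h.1.symm) b hb
        · exact cohen_indep hcc (fun n => (Sum.inr j, n)) (fun n => (Sum.inr j', n))
            (fun m n h => by simpa using h) (fun m n h => by simpa using h)
            (fun m n h => by simp at h; exact hj' h.1.symm) b hb
    have hst2 : St c c0 [p, r false, r true] P (h :: σ) b2 := by
      refine ⟨hb2', hst0.prom, hst0.col, fun s hs w hw => ?_⟩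
      have hw' : w ∈ W := List.mem_toFinset.2 hw
      simp only [List.mem_cons, List.not_mem_nil, or_false] at hs
      rcases hs with rfl | rfl | rfl
      · exact (hb2.trans hb1).trans (hst0.alive _ (List.mem_singleton.2 rfl) w hw)
      · exact hb2.trans (hw1 w hw')
      · exact hw2 w hw'
    have hkeep : ∀ s ∈ [p, r false, r true], p * s ∈ [p, r false, r true] := by
      intro s hs
      simp only [List.mem_cons, List.not_mem_nil, or_false] at hs ⊢
      rcases hs with rfl | rfl | rfl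
      · left; exact hpp
      · left; exact hL i i' j
      · right; right; exact hR i j j'
    obtain ⟨σ', b', P', h1, h2, h3, h4, h5⟩ := stage (hB k) hC hP (by simp)
      (fun κ => by cases κ <;> simp) hkeep hst2
    exact ⟨σ', b', P', (List.suffix_cons _ _).trans h1, h2, h3, h4, h5, h,
      h1.subset (by simp), hbig⟩
  -- the sequence
  let ST := {t : Node × B × (Node → Prop) // Pers (relS B q Out) t.2.2 ∧
    St c c0 [p] t.2.2 t.1 t.2.1}
  have hnext : ∀ (k : ℕ) (t : ST), ∃ t' : ST, t.1.1 <:+ t'.1.1 ∧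
      (∀ τ, t'.1.2.2 τ → t.1.2.2 τ) ∧ KillP q K E (Out k) t'.1.2.2 ∧
      ∃ g ∈ t'.1.1, g ∈ Big k := by
    intro k t
    obtain ⟨σ', b', P', h1, h2, h3, h4, h5, h6⟩ := hstage k t.1.1 t.1.2.1 t.1.2.2 t.2.1 t.2.2
    exact ⟨⟨(σ', b', P'), h2, h4⟩, h1, h3, h5, h6⟩
  choose nxt hnxt using hnext
  have hinit : St c c0 [p] WF [] (p.val (fun t => bv (c (1 * t) = c0))) := by
    refine ⟨hc0, trivial, by simp [nes], ?_⟩
    intro r hr w hw
    rw [List.mem_singleton] at hr
    simp only [fsl, List.mem_singleton] at hw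
    subst hr; subst hw
    exact le_rfl
  let seq : ℕ → ST := fun n => Nat.rec
    (⟨([], p.val (fun t => bv (c (1 * t) = c0)), WF), wf_pers (hB 0).big, hinit⟩ : ST)
    (fun k t => nxt k t) n
  have hseq : ∀ n, seq (n + 1) = nxt n (seq n) := fun n => rfl
  have hmono : ∀ m n, m ≤ n → ∀ τ, (seq n).1.2.2 τ → (seq m).1.2.2 τ := by
    intro m n hmn
    induction hmn with
    | refl => exact fun τ h => h
    | step _ ih => exact fun τ h => ih τ ((hnxt _ _).2.1 τ h)
  refine ⟨fun n => (seq n).1.1, c0, fun n => (hnxt n (seq n)).1, fun n => ?_,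
    fun n => (seq n).2.2.col, fun n => (hnxt n (seq n)).2.2.2, fun k => ?_⟩
  · exact hmono 0 n (Nat.zero_le _) _ (seq n).2.2.prom
  · exact ⟨(seq (k + 1)).1.2.2, (hnxt k (seq k)).2.2.1,
      fun m hm' => hmono (k + 1) m hm' _ (seq m).2.2.prom⟩

theorem final : ∃ x : ℕ → ℕ, (∀ m, x m ≤ 1) ∧ ∀ (ℓ : ℕ) (y : ℕ → ℕ), (∀ m, y m < ℓ) →
    ∃ h : ℕ → ℕ, (∀ m, h m ≤ 1) ∧ Set.Infinite {m : ℕ | h m = 1} ∧
      (∀ m, h m = 1 → 0 < m) ∧
      (∀ F G : Finset ℕ, F.Nonempty → G.Nonempty → (∀ a ∈ F, h a = 1) → (∀ a ∈ G, h a = 1) →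
        y (∑ a ∈ F, a) = y (∑ a ∈ G, a)) ∧
      ¬ ∃ g : ℕ → ℕ, TuringReducible (PFun.lift g) (PFun.lift h) ∧
        (∀ i : ℕ, i < 3 → Set.Infinite {m : ℕ | g (Nat.pair i m) = 1}) ∧
        ∀ a b c d e f : ℕ, a < b → b < c → d < e → e < f →
          g (Nat.pair 0 a) = 1 → g (Nat.pair 1 b) = 1 → g (Nat.pair 2 c) = 1 →
          g (Nat.pair 0 d) = 1 → g (Nat.pair 1 e) = 1 → g (Nat.pair 2 f) = 1 →
          x (Nat.pair a (Nat.pair b c)) = x (Nat.pair d (Nat.pair e f)) := by
  obtain ⟨Φ, hΦ, hΦ'⟩ := Pool.Agent.helper30.HT.functionals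
  obtain ⟨q, hq⟩ := Pool.Agent.helper30.HT.exists_idemQ
  set Out : ℕ → Fin 3 → (ℕ → ℕ) → ℕ → Prop := fun k i h x => Φ k h (Nat.pair i x) 1 with hOut
  obtain ⟨K, E, hfree, henv⟩ := Pool.Agent.helper18.HT.env q hq (relSets q Out) (relSets_countable q Out)
    (fun A hA => hA.1) (relPtr q Out) (relPtr_countable q Out)
    (by
      rintro X ⟨k, i, N, σ, hσ, rfl⟩ n
      exact ptr_large hσ n)
    (relFree q Out) (relFree_countable q Out) (fun X hX => hX.1)
  obtain ⟨B, instB, cc, hccc, hcc⟩ :=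
    Pool.Agent.helper63.HT.exists_cohen (((Set (Set ℕ)) ⊕ (Set ℕ)) × ℕ)
  obtain ⟨e, hL, hR, hA, hm, hn⟩ := henv (Set (Set ℕ)) (Set ℕ) B cc hcc
  have hunc : Uncountable (Set ℕ) := by
    rw [← Cardinal.aleph0_lt_mk_iff]
    simpa using Cardinal.cantor Cardinal.aleph0
  refine ⟨fun m => if fcol K E m.unpair.1 m.unpair.2.unpair.1 m.unpair.2.unpair.2 = true
    then 1 else 0, fun m => by dsimp only; split_ifs <;> omega, fun ℓ y hy => ?_⟩
  obtain ⟨s, c0, h1, h2, h3, h4, h5⟩ := construct hccc (I := Set (Set ℕ)) (J := Set ℕ)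
    (by simpa using Cardinal.cantor (Cardinal.mk (Set ℕ))) hcc hq hfree hL hR hA hm hn
    (fun w => y (num w)) ℓ (fun w => hy _)
  have hkey : ∀ F : Finset ℕ, F.Nonempty → (∀ a ∈ F, limH s a = 1) → y (∑ a ∈ F, a) = c0 := by
    intro F hF hF1
    obtain ⟨n0, hn0⟩ := exists_common h1 F hF1
    obtain ⟨w, hw, hw', hw''⟩ := sum_mem (h2 n0) F (hn0 n0 le_rfl)
    rw [← hw']
    exact h3 n0 w (hw'' hF)
  refine ⟨limH s, limH_le s, ?_, ?_, ?_, ?_⟩
  · refine Set.infinite_of_not_bddAbove ?_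
    rintro ⟨M, hM⟩
    obtain ⟨g, hg, hg'⟩ := h4 (M + 1)
    have h6 : limH s (num g) = 1 := by
      unfold limH
      rw [if_pos ⟨M + 1 + 1, g, hg, rfl⟩]
    have h7 := hM (show num g ∈ {m | limH s m = 1} from h6)
    have h8 := le_num_of_mem hg'
    omega
  · intro m hm'
    obtain ⟨n, g, hg, rfl⟩ := limH_eq_one hm'
    have : ∀ σ : Node, WF σ → ∀ g ∈ σ, (show Finset ℕ from g).Nonempty := by
      intro σ
      induction σ with
      | nil => simp
      | cons h σ ih =>
        intro hσ g hg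
        rcases List.mem_cons.1 hg with rfl | hg
        · exact hσ.2.1
        · exact ih hσ.1 g hg
    exact num_pos (this _ (h2 n) g hg)
  · intro F G hF hG hF1 hG1
    rw [hkey F hF hF1, hkey G hG hG1]
  · rintro ⟨g, hg, hinf, hhom⟩
    obtain ⟨k, hk⟩ := hΦ' g (limH s) hg
    obtain ⟨P', hkill, hP'⟩ := h5 k
    have hout : ∀ (i : Fin 3) x, Out k i (limH s) x → g (Nat.pair i x) = 1 := by
      intro i x hx
      exact (hk _ _).1 hx
    rcases hkill with ⟨i, N, hN⟩ | ⟨x, y', z, x', y'', z', hxy, hyz, hxy', hyz', hne, u1, u2, u3,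
      v1, v2, v3⟩
    · have h6 := never_out (Out := Out k i) (fun h x hx => by
        obtain ⟨u, hu⟩ := hΦ k h _ _ hx
        exact ⟨u, fun h' hh' => hu h' hh'⟩) hN h1 hP'
      refine hinf i i.2 ((Set.finite_lt_nat N).subset fun x hx => ?_)
      by_contra hxN
      rw [Set.mem_setOf_eq, not_lt] at hxN
      exact h6 x hxN ((hk _ _).2 hx)
    · have w1 := hout 0 x (u1.out h1 hP')
      have w2 := hout 1 y' (u2.out h1 hP')
      have w3 := hout 2 z (u3.out h1 hP')
      have w4 := hout 0 x' (v1.out h1 hP')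
      have w5 := hout 1 y'' (v2.out h1 hP')
      have w6 := hout 2 z' (v3.out h1 hP')
      have h7 := hhom x y' z x' y'' z' hxy hyz hxy' hyz' w1 w2 w3 w4 w5 w6
      simp only [Nat.unpair_pair] at h7
      apply hne
      cases h8 : fcol K E x y' z <;> cases h9 : fcol K E x' y'' z' <;> simp [h8, h9] at h7 ⊢

end Pool.Agent.helper79.HT
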