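import Pool.Agent.helper79.HT.Defs

/-!
Bars over an idempotent ultrafilter and pointers of functionals (MP_e6cd9b_lc).
-/

set_option autoImplicit false

namespace Pool.Agent.helper79.HT

/-- nodes: finite lists of blocks, the newest block first -/
abbrev Node := List Blk

/-- the oracle of a node: characteristic function of the set of codes of its blocks -/
noncomputable def orac (σ : Node) : ℕ → ℕ := fun m => open Classical in if ∃ h ∈ σ, num h = m then 1 else 0

/-- `σ` is `q`-barred by `Q` -/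
inductive Bar (q : Ultrafilter Blk) (Q : Node → Prop) : Node → Prop
  | base (σ : Node) : Q σ → Bar q Q σ
  | lim (σ : Node) (A : Set Blk) (hA : A ∈ q) (h : ∀ h ∈ A, Bar q Q (h :: σ)) : Bar q Q σ

theorem Bar.lim' {q : Ultrafilter Blk} {Q : Node → Prop} {σ : Node}
    (h : ∀ᶠ h in q, Bar q Q (h :: σ)) : Bar q Q σ :=
  Bar.lim σ {h | Bar q Q (h :: σ)} h (fun _ hx => hx)

theorem Bar.cases' {q : Ultrafilter Blk} {Q : Node → Prop} {σ : Node} (h : Bar q Q σ) :
    Q σ ∨ ∀ᶠ h in q, Bar q Q (h :: σ) := by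
  cases h with
  | base _ h => exact Or.inl h
  | lim _ A hA h => exact Or.inr (Filter.mem_of_superset hA h)

theorem not_bar {q : Ultrafilter Blk} {Q : Node → Prop} {σ : Node} (h : ¬ Bar q Q σ) :
    ¬ Q σ ∧ ∀ᶠ h in q, ¬ Bar q Q (h :: σ) := by
  refine ⟨fun hq => h (Bar.base _ hq), ?_⟩
  rw [Ultrafilter.eventually_not]
  exact fun hh => h (Bar.lim' hh)

theorem Bar.mono {q : Ultrafilter Blk} {Q Q' : Node → Prop} (hQ : ∀ σ, Q σ → Q' σ) {σ : Node}
    (h : Bar q Q σ) : Bar q Q' σ := by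
  induction h with
  | base σ h => exact Bar.base _ (hQ _ h)
  | lim σ A hA _ ih => exact Bar.lim _ A hA ih

/-- nodes where a bar is decided by the next block -/
def Split (q : Ultrafilter Blk) (Q : Node → Prop) (σ : Node) : Prop :=
  ¬ Q σ ∧ ∀ᶠ h in q, Q (h :: σ)

theorem bar_split {q : Ultrafilter Blk} {Q : Node → Prop} {σ : Node} (h : Bar q Q σ) (hn : ¬ Q σ) :
    Bar q (Split q Q) σ := by
  induction h with
  | base σ h => exact absurd h hn
  | lim σ A hA _ ih =>
    by_cases hs : ∀ᶠ h in q, Q (h :: σ)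
    · exact Bar.base _ ⟨hn, hs⟩
    · rw [← Ultrafilter.eventually_not] at hs
      refine Bar.lim' ?_
      filter_upwards [hs, hA] with h h1 h2 using ih h h2 h1

section functional

variable (q : Ultrafilter Blk) (Out : (ℕ → ℕ) → ℕ → Prop)

/-- `x` is output with oracle agreeing with `σ` up to some bound -/
def Cert (x : ℕ) (σ : Node) : Prop :=
  ∃ u, ∀ h : ℕ → ℕ, (∀ m < u, h m = orac σ m) → Out h x

/-- `x` is forced to be output -/
def Det (x : ℕ) : Node → Prop := Bar q (Cert Out x)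

/-- some `x ≥ N` is output -/
def OutGe (N : ℕ) (σ : Node) : Prop := ∃ x, N ≤ x ∧ Cert Out x σ

/-- some `x ≥ N` is forced to be output -/
def DetGe (N : ℕ) (σ : Node) : Prop := ∃ x, N ≤ x ∧ Det q Out x σ

open Classical in
/-- the pointer at a node -/
noncomputable def ptr (N : ℕ) (σ : Node) : Blk → ℕ := fun h =>
  sInf {x | N ≤ x ∧ Det q Out x (h :: σ)}

end functional

theorem le_num_of_mem {n : ℕ} {s : Blk} (h : s ∈ Big n) : n ≤ num s := by
  obtain ⟨⟨a, ha⟩, h2⟩ := h
  have h3 : 2 ^ a ≤ num s := by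
    unfold num
    exact Finset.single_le_sum (f := fun a => 2 ^ a) (fun _ _ => Nat.zero_le _) ha
  have h4 := h2 a ha
  have h5 : a < 2 ^ a := Nat.lt_two_pow_self
  omega

theorem orac_cons {σ : Node} {h : Blk} {u : ℕ} (hu : h ∈ Big u) :
    ∀ m < u, orac (h :: σ) m = orac σ m := by
  intro m hm
  have h1 := le_num_of_mem hu
  unfold orac
  congr 1
  simp only [List.mem_cons, eq_iff_iff]
  constructor
  · rintro ⟨g, rfl | hg, h2⟩
    · omega
    · exact ⟨g, hg, h2⟩
  · rintro ⟨g, hg, h2⟩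
    exact ⟨g, Or.inr hg, h2⟩

theorem det_persist {q : Ultrafilter Blk} (hq : IdemQ q) {Out : (ℕ → ℕ) → ℕ → Prop} {x : ℕ}
    {σ : Node} (h : Det q Out x σ) : ∀ᶠ h in q, Det q Out x (h :: σ) := by
  rcases Bar.cases' h with h | h
  · obtain ⟨u, hu⟩ := h
    filter_upwards [hq.1 u] with g hg
    refine Bar.base _ ⟨u, fun h' hh' => hu h' fun m hm => ?_⟩
    rw [hh' m hm, orac_cons hg m hm]
  · exact h

section ptr

variable {q : Ultrafilter Blk} {Out : (ℕ → ℕ) → ℕ → Prop} {N : ℕ} {σ : Node}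

theorem ptr_spec (h : Split q (DetGe q Out N) σ) :
    ∀ᶠ h in q, N ≤ ptr q Out N σ h ∧ Det q Out (ptr q Out N σ h) (h :: σ) := by
  filter_upwards [h.2] with g hg
  have h1 : (({x | N ≤ x ∧ Det q Out x (g :: σ)} : Set ℕ)).Nonempty := hg
  exact Nat.sInf_mem h1

theorem ptr_large (h : Split q (DetGe q Out N) σ) (n : ℕ) :
    ∀ᶠ g in q, n ≤ ptr q Out N σ g := by
  induction n with
  | zero => exact Filter.Eventually.of_forall fun _ => Nat.zero_le _
  | succ n ih =>
    by_contra hc
    rw [← Ultrafilter.eventually_not] at hc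
    have h1 : ∀ᶠ g in q, ptr q Out N σ g = n := by
      filter_upwards [ih, hc] with g h1 h2
      omega
    apply h.1
    have h2 := ptr_spec h
    have h3 : ∀ᶠ g in q, Det q Out n (g :: σ) := by
      filter_upwards [h1, h2] with g h3 h4
      rw [h3] at h4
      exact h4.2
    obtain ⟨g, h4, h5⟩ := (h1.and h2).exists
    exact ⟨n, by omega, Bar.lim' h3⟩

end ptr

/-- dichotomy for pointers -/
theorem minLike_or_nonMin {q : Ultrafilter Blk} (hq : IdemQ q) {X : Blk → ℕ} :
    MinLike q X ∨ NonMin q X := by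
  by_contra hcon
  push Not at hcon
  obtain ⟨h1, h2⟩ := hcon
  apply h1
  unfold NonMin at h2
  rw [← Ultrafilter.eventually_not] at h2
  -- for q-most s there is c(s)
  have h3 : ∀ᶠ s in q, ∃ c, ∀ᶠ t in q, X (s * t) = c := by
    filter_upwards [h2] with s hs
    push Not at hs
    obtain ⟨n, hn⟩ := hs
    have hn' : ∀ᶠ t in q, X (s * t) < n := hn
    clear hn
    induction n with
    | zero => exact absurd hn'.exists (by simp)
    | succ n ih =>
      by_cases hc : ∀ᶠ t in q, X (s * t) = n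
      · exact ⟨n, hc⟩
      · rw [← Ultrafilter.eventually_not] at hc
        apply ih
        filter_upwards [hn', hc] with t h4 h5
        omega
  choose! c hc using fun s (h : ∃ c, ∀ᶠ t in q, X (s * t) = c) => h
  have h4 : ∀ᶠ s in q, ∀ᶠ t in q, X (s * t) = c s := by
    filter_upwards [h3] with s hs using hc s hs
  -- c (s*t) = c s
  have h5 : ∀ᶠ s in q, ∀ᶠ t in q, ∀ᶠ r in q, X (s * t * r) = c (s * t) :=
    (hq.2 _).2 h4
  have h6 : ∀ᶠ s in q, ∀ᶠ t in q, ∀ᶠ r in q, X (s * t * r) = c s := by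
    filter_upwards [h4] with s hs
    have := (hq.2 (fun r => X (s * r) = c s)).2 hs
    filter_upwards [this] with t ht
    filter_upwards [ht] with r hr
    rw [mul_assoc]; exact hr
  have h7 : ∀ᶠ s in q, ∀ᶠ t in q, c (s * t) = c s := by
    filter_upwards [h5, h6] with s h5 h6
    filter_upwards [h5, h6] with t h5 h6
    obtain ⟨r, h8, h9⟩ := (h5.and h6).exists
    rw [← h8, h9]
  have h8 : ∀ᶠ s in q, X s = c s := by
    refine (hq.2 _).1 ?_
    filter_upwards [h4, h7] with s h4 h7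
    filter_upwards [h4, h7] with t h4 h7
    rw [h4, h7]
  filter_upwards [h8, h4] with s h8 h4
  filter_upwards [h4] with t h4
  rw [h4, h8]

end Pool.Agent.helper79.HT
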