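import Pool.Agent.helper79.HT.Defs

/-!
Basic lemmas on `B`-valued ultrafilters (MP_e6cd9b_lc).
-/

set_option autoImplicit false

namespace Pool.Agent.helper79.HT

universe u v

section bv

variable {B : Type u} [CompleteBooleanAlgebra B]

theorem bv_true {P : Prop} (h : P) : (bv P : B) = ⊤ := by
  unfold bv
  simp [h]

theorem bv_false {P : Prop} (h : ¬ P) : (bv P : B) = ⊥ := by
  unfold bv
  simp [h]

theorem of_inf_bv_ne {P : Prop} {b : B} (h : b ⊓ bv P ≠ ⊥) : P := by
  by_contra hP
  rw [bv_false hP] at h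
  simp at h

theorem of_le_bv {P : Prop} {b : B} (hb : b ≠ ⊥) (h : b ≤ bv P) : P := by
  by_contra hP
  rw [bv_false hP] at h
  exact hb (le_bot_iff.1 h)

theorem bv_and (P Q : Prop) : (bv (P ∧ Q) : B) = bv P ⊓ bv Q := by
  by_cases hP : P <;> by_cases hQ : Q <;> simp [bv, hP, hQ]

theorem bv_not (P : Prop) : (bv (¬ P) : B) = (bv P)ᶜ := by
  by_cases hP : P <;> simp [bv, hP]

theorem bv_mono {P Q : Prop} (h : P → Q) : (bv P : B) ≤ bv Q := by
  by_cases hP : P
  · rw [bv_true (h hP)]; exact le_top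
  · rw [bv_false hP]; exact bot_le

end bv

namespace BU

variable {S : Type v} {B : Type u} [CompleteBooleanAlgebra B] (p : BU S B)

theorem mono {A A' : S → B} (h : ∀ s, A s ≤ A' s) : p.val A ≤ p.val A' := by
  have h1 : p.val (fun s => A s ⊓ A' s) = p.val A := by
    congr 1; funext s; exact inf_eq_left.2 (h s)
  rw [p.inf] at h1
  exact inf_eq_left.1 h1

theorem val_top : p.val (fun _ => ⊤) = ⊤ := p.const ⊤

theorem le_iSup (A : S → B) : p.val A ≤ ⨆ s, A s := by
  have := p.mono (A := A) (A' := fun _ => ⨆ s, A s) (fun s => _root_.le_iSup A s)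
  rwa [p.const] at this

theorem exists_ne {A : S → B} {b : B} (hb : b ≠ ⊥) (h : b ≤ p.val A) : ∃ s, b ⊓ A s ≠ ⊥ := by
  by_contra hcon
  push Not at hcon
  have h1 : b ≤ ⨆ s, A s := h.trans (p.le_iSup A)
  have h2 : b ⊓ ⨆ s, A s = ⊥ := by
    rw [inf_iSup_eq]
    simp [hcon]
  rw [inf_eq_left.2 h1] at h2
  exact hb h2

theorem le_inf {A A' : S → B} {b : B} (h : b ≤ p.val A) (h' : b ≤ p.val A') :
    b ≤ p.val (fun s => A s ⊓ A' s) := by
  rw [p.inf]; exact _root_.le_inf h h'

theorem le_list {ι : Type*} (l : List ι) (A : ι → S → B) {b : B}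
    (h : ∀ i ∈ l, b ≤ p.val (A i)) : b ≤ p.val (fun s => (l.map fun i => A i s).foldr (· ⊓ ·) ⊤) := by
  induction l with
  | nil => simp [p.val_top]
  | cons i l ih =>
    simp only [List.map_cons, List.foldr_cons]
    exact p.le_inf (h i (by simp)) (ih fun j hj => h j (by simp [hj]))

theorem le_of_forall {ι : Type*} [Finite ι] (A : ι → S → B) {b : B}
    (h : ∀ i, b ≤ p.val (A i)) : b ≤ p.val (fun s => ⨅ i, A i s) := by
  classical
  have : Fintype ι := Fintype.ofFinite ι
  have h1 := p.le_list (Finset.univ : Finset ι).toList A (b := b) (fun i _ => h i)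
  refine h1.trans (p.mono fun s => ?_)
  refine le_iInf fun i => ?_
  have : ∀ l : List ι, i ∈ l → (l.map fun i => A i s).foldr (· ⊓ ·) ⊤ ≤ A i s := by
    intro l
    induction l with
    | nil => simp
    | cons j l ih =>
      intro hi
      simp only [List.map_cons, List.foldr_cons]
      rcases List.mem_cons.1 hi with rfl | hi
      · exact inf_le_left
      · exact inf_le_right.trans (ih hi)
  exact this _ (by simp)

theorem le_compl {A : S → B} {b : B} (h : b ≤ (p.val A)ᶜ) : b ≤ p.val (fun s => (A s)ᶜ) := by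
  rw [p.compl]; exact h

end BU

end Pool.Agent.helper79.HT
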