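import Mathlib

/-!
Definitions for MP_e6cd9b_lc (negative answer, frozen statement S15548).
Boolean-valued ultrafilters on a semigroup.
-/

set_option autoImplicit false

namespace Pool.Agent.helper79.HT

universe u v

/-- Blocks: finite sets of naturals with union as multiplication. -/
def Blk : Type := Finset ℕ

instance : CommMonoid Blk where
  mul s t := @Union.union (Finset ℕ) _ s t
  one := (∅ : Finset ℕ)
  mul_assoc s t r := Finset.union_assoc _ _ _
  one_mul s := Finset.empty_union _
  mul_one s := Finset.union_empty _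
  mul_comm s t := Finset.union_comm _ _

instance : Countable Blk := inferInstanceAs (Countable (Finset ℕ))

/-- nonempty blocks all of whose elements are `≥ n` -/
def Big (n : ℕ) : Set Blk :=
  {s | (show Finset ℕ from s).Nonempty ∧ ∀ a ∈ (show Finset ℕ from s), n ≤ a}

/-- the integer coded by a block -/
def num (s : Blk) : ℕ := ∑ a ∈ (show Finset ℕ from s), 2 ^ a

/-- Boolean value of a proposition -/
noncomputable def bv {B : Type u} [CompleteBooleanAlgebra B] (P : Prop) : B :=
  ⨆ _ : P, ⊤

/-- `B`-valued ultrafilters on `S`: Boolean homomorphisms `(S → B) → B` that are the identity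
on constants. -/
@[ext] structure BU (S : Type v) (B : Type u) [CompleteBooleanAlgebra B] where
  val : (S → B) → B
  const : ∀ b : B, val (fun _ => b) = b
  inf : ∀ A A' : S → B, val (fun s => A s ⊓ A' s) = val A ⊓ val A'
  compl : ∀ A : S → B, val (fun s => (A s)ᶜ) = (val A)ᶜ

variable {S : Type v} {B : Type u} [CompleteBooleanAlgebra B]

/-- product of `B`-valued ultrafilters -/
def BU.mulOf [Mul S] (p q : BU S B) : BU S B where
  val A := p.val fun s => q.val fun t => A (s * t)
  const b := by simp [q.const, p.const]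
  inf A A' := by rw [← p.inf]; congr 1; funext s; rw [← q.inf]
  compl A := by rw [← p.compl]; congr 1; funext s; rw [← q.compl]

instance [Semigroup S] : Semigroup (BU S B) where
  mul p q := BU.mulOf p q
  mul_assoc p q r := by
    apply BU.ext
    funext A
    change p.val (fun s => q.val fun s' => r.val fun t => A (s * s' * t)) =
      p.val (fun s => q.val fun s' => r.val fun t => A (s * (s' * t)))
    simp only [mul_assoc]

theorem BU.mul_val [Semigroup S] (p q : BU S B) (A : S → B) :
    (p * q).val A = p.val fun s => q.val fun t => A (s * t) := rfl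

/-- `B`-closed sets of `B`-valued ultrafilters -/
def VC (D : Set (S → B)) : Set (BU S B) := {p | ∀ A ∈ D, p.val A = ⊤}

def IsVC (T : Set (BU S B)) : Prop := ∃ D : Set (S → B), T = VC D

/-- the literal `c l` or its complement -/
def lit {L : Type v} (c : L → B) (ε : L → Bool) (l : L) : B := if ε l = true then c l else (c l)ᶜ

/-- countable chain condition -/
def CCC (B : Type u) [CompleteBooleanAlgebra B] : Prop :=
  ∀ (ι : Type u) (f : ι → B), (∀ i, f i ≠ ⊥) → (∀ i j, i ≠ j → f i ⊓ f j = ⊥) → Countable ι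

/-- `c` is a family of independent Cohen generators with dense cylinders -/
def Cohen {L : Type v} (c : L → B) : Prop :=
  (∀ (F : Finset L) (ε : L → Bool), F.inf (lit c ε) ≠ ⊥) ∧
  (∀ b : B, b ≠ ⊥ → ∃ (F : Finset L) (ε : L → Bool), F.inf (lit c ε) ≤ b)

/-- pointer `X` is minimum-like for `q` -/
def MinLike (q : Ultrafilter Blk) (X : Blk → ℕ) : Prop :=
  ∀ᶠ s in q, ∀ᶠ t in q, X (s * t) = X s

/-- pointer `X` is not minimum-like for `q` -/
def NonMin (q : Ultrafilter Blk) (X : Blk → ℕ) : Prop :=
  ∀ᶠ s in q, ∀ n, ∀ᶠ t in q, n ≤ X (s * t)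

/-- `q` is an idempotent ultrafilter of blocks containing all `Big n` -/
def IdemQ (q : Ultrafilter Blk) : Prop :=
  (∀ n, Big n ∈ q) ∧ (∀ P : Blk → Prop, (∀ᶠ s in q, ∀ᶠ t in q, P (s * t)) ↔ ∀ᶠ s in q, P s)

/-- `p` sends the pointer `X` to kind `κ`, to members of `T`, outside every other `T'`,
and `E x (X ·)` has value `T x` for `x` of kind `κ`. -/
def Typ (K : ℕ → Bool) (E : ℕ → ℕ → Bool) (p : BU Blk B) (X : Blk → ℕ) (κ : Bool)
    (T : ℕ → B) (Oth : Set (ℕ → B)) : Prop :=
  p.val (fun h => bv (K (X h) = κ)) = ⊤ ∧ p.val (fun h => T (X h)) = ⊤ ∧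
  (∀ T' ∈ Oth, p.val (fun h => (T' (X h))ᶜ) = ⊤) ∧
  (∀ x, K x = κ → p.val (fun h => bv (E x (X h) = true)) = T x)

end Pool.Agent.helper79.HT
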