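import Pool.Agent.helper79.HT.Defs

/-!
Interface for MP_e6cd9b_lc: statements of the modules A (Ellis), B (Cantor algebra),
T (Turing functionals), D (environment). Each module is its own file; this file is only a
statement list and will be deleted.
-/

set_option autoImplicit false

namespace Pool.Agent.helper79.HT.Iface

open Pool.Agent.helper79.HT

universe u v w z

/-- A1 -/
theorem vc_nonempty {S : Type v} {B : Type u} [CompleteBooleanAlgebra B] (D : Set (S → B))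
    (h : ∀ F : Finset (S → B), (↑F : Set (S → B)) ⊆ D → ∀ b : B, b ≠ ⊥ →
      ∃ s, b ⊓ (F.inf id) s ≠ ⊥) : (VC D).Nonempty := by
  sorry

/-- A2 -/
theorem matrix {S : Type v} {B : Type u} [CompleteBooleanAlgebra B] [Semigroup S]
    {I : Type w} {J : Type z} [Nonempty J]
    (S0 : Set (BU S B)) (h0 : IsVC S0) (hmul : ∀ p ∈ S0, ∀ q ∈ S0, p * q ∈ S0)
    (R : I → Set (BU S B)) (L : J → Set (BU S B))
    (hR : ∀ i, IsVC (R i)) (hRne : ∀ i, (R i).Nonempty) (hRs : ∀ i, R i ⊆ S0)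
    (hRr : ∀ i, ∀ p ∈ R i, ∀ q ∈ S0, p * q ∈ R i)
    (hL : ∀ j, IsVC (L j)) (hLne : ∀ j, (L j).Nonempty) (hLs : ∀ j, L j ⊆ S0)
    (hLl : ∀ j, ∀ p ∈ L j, ∀ q ∈ S0, q * p ∈ L j) :
    ∃ e : I → J → BU S B, (∀ i j, e i j ∈ R i ∧ e i j ∈ L j) ∧
      (∀ i i' j, e i j * e i' j = e i j) ∧ (∀ i j j', e i j * e i j' = e i j') := by
  sorry

/-- B -/
theorem exists_cohen (L : Type) : ∃ (B : Type) (_ : CompleteBooleanAlgebra B) (c : L → B),
    CCC B ∧ Cohen c := by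
  sorry

/-- T -/
theorem functionals : ∃ Φ : ℕ → (ℕ → ℕ) → ℕ → ℕ → Prop,
    (∀ k h n v, Φ k h n v → ∃ u, ∀ h' : ℕ → ℕ, (∀ m < u, h' m = h m) → Φ k h' n v) ∧
    (∀ g h : ℕ → ℕ, TuringReducible (PFun.lift g) (PFun.lift h) →
      ∃ k, ∀ n v, Φ k h n v ↔ g n = v) := by
  sorry

/-- Q -/
theorem exists_idemQ : ∃ q : Ultrafilter Blk, IdemQ q := by
  sorry

/-- D -/
theorem env (q : Ultrafilter Blk) (hq : IdemQ q)
    (A0 : Set (Set Blk)) (hA0 : A0.Countable) (hAq : ∀ A ∈ A0, A ∈ q)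
    (Z : Set (Blk → ℕ)) (hZ : Z.Countable) (hZq : ∀ X ∈ Z, ∀ n, ∀ᶠ h in q, n ≤ X h)
    (Fr : Set (Set ℕ)) (hFr : Fr.Countable) (hFri : ∀ X ∈ Fr, X.Infinite) :
    ∃ (K : ℕ → Bool) (E : ℕ → ℕ → Bool),
      (∀ X ∈ Fr, ∀ (N : ℕ) (κ : Bool) (ε : ℕ → Bool),
        ∃ z ∈ X, N ≤ z ∧ K z = κ ∧ ∀ x < N, E x z = ε x) ∧
      ∀ (I J : Type) [Nonempty J] (B : Type) [CompleteBooleanAlgebra B] (c : (I ⊕ J) × ℕ → B),
        Cohen c → ∃ e : I → J → BU Blk B,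
          (∀ i i' j, e i j * e i' j = e i j) ∧ (∀ i j j', e i j * e i j' = e i j') ∧
          (∀ i j, ∀ A ∈ A0, (e i j).val (fun h => bv (h ∈ A)) = ⊤) ∧
          (∀ i j, ∀ X ∈ Z, MinLike q X → Typ K E (e i j) X false (fun n => c (Sum.inl i, n))
            {T | ∃ i', i' ≠ i ∧ T = fun n => c (Sum.inl i', n)}) ∧
          (∀ i j, ∀ X ∈ Z, NonMin q X → Typ K E (e i j) X true (fun n => c (Sum.inr j, n))
            {T | ∃ j', j' ≠ j ∧ T = fun n => c (Sum.inr j', n)}) := by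
  sorry

end Pool.Agent.helper79.HT.Iface
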