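import Pool.Agent.helper79.HT.Defs

/-!
The typical centre: countable chain condition plus cardinality (MP_e6cd9b_lc).
-/

set_option autoImplicit false

namespace Pool.Agent.helper79.HT

universe u

/-- one-dimensional statement: only countably many indices are isolated -/
theorem countable_isolated {I B : Type} [CompleteBooleanAlgebra B] (hccc : CCC B)
    (p : I → BU Blk B) (c : Blk → ℕ) :
    {i : I | ∃ (W : Finset Blk) (c0 : ℕ) (b : B), b ≠ ⊥ ∧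
      (∀ w ∈ W, b ≤ (p i).val (fun t => bv (c (w * t) = c0))) ∧
      ∀ i', i' ≠ i → ∀ b' ≤ b, b' ≠ ⊥ →
        ¬ ∀ w ∈ W, b' ≤ (p i').val (fun t => bv (c (w * t) = c0))}.Countable := by
  have h1 : {i : I | ∃ (W : Finset Blk) (c0 : ℕ) (b : B), b ≠ ⊥ ∧
      (∀ w ∈ W, b ≤ (p i).val (fun t => bv (c (w * t) = c0))) ∧
      ∀ i', i' ≠ i → ∀ b' ≤ b, b' ≠ ⊥ →
        ¬ ∀ w ∈ W, b' ≤ (p i').val (fun t => bv (c (w * t) = c0))} =
      ⋃ (W : Finset Blk) (c0 : ℕ), {i : I | ∃ b : B, b ≠ ⊥ ∧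
      (∀ w ∈ W, b ≤ (p i).val (fun t => bv (c (w * t) = c0))) ∧
      ∀ i', i' ≠ i → ∀ b' ≤ b, b' ≠ ⊥ →
        ¬ ∀ w ∈ W, b' ≤ (p i').val (fun t => bv (c (w * t) = c0))} := by
    ext i
    simp only [Set.mem_setOf_eq, Set.mem_iUnion]
  rw [h1]
  refine Set.countable_iUnion fun W => Set.countable_iUnion fun c0 => ?_
  set T := {i : I | ∃ b : B, b ≠ ⊥ ∧
      (∀ w ∈ W, b ≤ (p i).val (fun t => bv (c (w * t) = c0))) ∧
      ∀ i', i' ≠ i → ∀ b' ≤ b, b' ≠ ⊥ →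
        ¬ ∀ w ∈ W, b' ≤ (p i').val (fun t => bv (c (w * t) = c0))} with hT
  choose f hf using fun i : T => i.2
  refine hccc T f (fun i => (hf i).1) fun i i' hii' => ?_
  by_contra hne
  refine (hf i).2.2 i' (fun h => hii' (Subtype.ext h.symm)) (f i ⊓ f i') inf_le_left hne ?_
  intro w hw
  exact inf_le_right.trans ((hf i').2.1 w hw)

theorem typical {I J B : Type} [CompleteBooleanAlgebra B] (hccc : CCC B) [Uncountable J]
    (hIJ : Cardinal.mk J < Cardinal.mk I) (e : I → J → BU Blk B) (c : Blk → ℕ) :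
    ∃ i j, ∀ (W : Finset Blk) (c0 : ℕ) (b : B), b ≠ ⊥ →
      (∀ w ∈ W, b ≤ (e i j).val (fun t => bv (c (w * t) = c0))) →
      (∃ i', i' ≠ i ∧ ∃ b' ≤ b, b' ≠ ⊥ ∧
        ∀ w ∈ W, b' ≤ (e i' j).val (fun t => bv (c (w * t) = c0))) ∧
      (∃ j', j' ≠ j ∧ ∃ b' ≤ b, b' ≠ ⊥ ∧
        ∀ w ∈ W, b' ≤ (e i j').val (fun t => bv (c (w * t) = c0))) := by
  set bad : J → Set I := fun j => {i : I | ∃ (W : Finset Blk) (c0 : ℕ) (b : B), b ≠ ⊥ ∧
      (∀ w ∈ W, b ≤ (e i j).val (fun t => bv (c (w * t) = c0))) ∧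
      ∀ i', i' ≠ i → ∀ b' ≤ b, b' ≠ ⊥ →
        ¬ ∀ w ∈ W, b' ≤ (e i' j).val (fun t => bv (c (w * t) = c0))} with hbad
  have h1 : ∀ j, (bad j).Countable := fun j => countable_isolated hccc (fun i => e i j) c
  have h2 : ∃ i, ∀ j, i ∉ bad j := by
    by_contra hcon
    push Not at hcon
    have h3 : (⋃ j, bad j) = Set.univ := by
      ext i
      simp only [Set.mem_iUnion, Set.mem_univ, iff_true]
      exact hcon i
    have h4 : Cardinal.mk (⋃ j, bad j) ≤ Cardinal.mk J := by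
      refine (Cardinal.mk_iUnion_le _).trans ?_
      have h5 : ⨆ j, Cardinal.mk (bad j) ≤ Cardinal.aleph0 := by
        refine ciSup_le' fun j => ?_
        exact Cardinal.le_aleph0_iff_set_countable.2 (h1 j)
      have h6 : Cardinal.aleph0 ≤ Cardinal.mk J := Cardinal.aleph0_le_mk J
      calc Cardinal.mk J * ⨆ j, Cardinal.mk (bad j) ≤ Cardinal.mk J * Cardinal.aleph0 := by
            gcongr
        _ = Cardinal.mk J := Cardinal.mul_aleph0_eq h6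
    rw [h3, Cardinal.mk_univ] at h4
    exact absurd h4 (not_le.2 hIJ)
  obtain ⟨i, hi⟩ := h2
  have h7 := countable_isolated hccc (fun j => e i j) c
  obtain ⟨j, hj⟩ : ∃ j, j ∉ {j : J | ∃ (W : Finset Blk) (c0 : ℕ) (b : B), b ≠ ⊥ ∧
      (∀ w ∈ W, b ≤ (e i j).val (fun t => bv (c (w * t) = c0))) ∧
      ∀ j', j' ≠ j → ∀ b' ≤ b, b' ≠ ⊥ →
        ¬ ∀ w ∈ W, b' ≤ (e i j').val (fun t => bv (c (w * t) = c0))} := by
    by_contra hcon
    exact Set.not_countable_univ (h7.mono fun j _ => by_contra fun hj => hcon ⟨j, hj⟩)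
  refine ⟨i, j, fun W c0 b hb hW => ⟨?_, ?_⟩⟩
  · by_contra hcon
    refine hi j ⟨W, c0, b, hb, hW, fun i' hi' b' hb' hb'' hw => hcon ⟨i', hi', b', hb', hb'', hw⟩⟩
  · by_contra hcon
    refine hj ⟨W, c0, b, hb, hW, fun i' hi' b' hb' hb'' hw => hcon ⟨i', hi', b', hb', hb'', hw⟩⟩

end Pool.Agent.helper79.HT
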