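import Pool.Agent.helper79.HT.Sums
import Pool.Agent.helper79.HT.Typical
import Pool.Agent.helper18.HT.Env
import Pool.Agent.helper30.HT.Turing
import Pool.Agent.helper30.HT.IdemQ
import Pool.Agent.helper63.HT.Cohen

/-!
Assembly (MP_e6cd9b_lc).
-/

set_option autoImplicit false

namespace Pool.Agent.helper79.HT

/-- the relevant sets -/
def relSets (q : Ultrafilter Blk) (Out : ℕ → Fin 3 → (ℕ → ℕ) → ℕ → Prop) : Set (Set Blk) :=
  {A | A ∈ q ∧ ((∃ n, A = Big n) ∨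
    (∃ k i x σ, A = {h | Det q (Out k i) x (h :: σ)}) ∨
    (∃ k i N σ, A = {h | ¬ Bar q (OutGe (Out k i) N) (h :: σ)}) ∨
    (∃ k i x σ, A = RS q (Cert (Out k i) x) σ) ∨
    (∃ k i N σ, A = RS q (Split q (DetGe q (Out k i) N)) σ) ∨
    (∃ k i N σ, A = {h | N ≤ ptr q (Out k i) N σ h ∧
      Det q (Out k i) (ptr q (Out k i) N σ h) (h :: σ)}))}

theorem relSets_countable (q : Ultrafilter Blk) (Out : ℕ → Fin 3 → (ℕ → ℕ) → ℕ → Prop) :
    (relSets q Out).Countable := by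
  have h1 : (Set.range (fun n => Big n)).Countable := Set.countable_range _
  have h2 : (Set.range (fun t : ℕ × Fin 3 × ℕ × Node =>
    {h | Det q (Out t.1 t.2.1) t.2.2.1 (h :: t.2.2.2)})).Countable := Set.countable_range _
  have h3 : (Set.range (fun t : ℕ × Fin 3 × ℕ × Node =>
    {h | ¬ Bar q (OutGe (Out t.1 t.2.1) t.2.2.1) (h :: t.2.2.2)})).Countable :=
    Set.countable_range _
  have h4 : (Set.range (fun t : ℕ × Fin 3 × ℕ × Node =>
    RS q (Cert (Out t.1 t.2.1) t.2.2.1) t.2.2.2)).Countable := Set.countable_range _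
  have h5 : (Set.range (fun t : ℕ × Fin 3 × ℕ × Node =>
    RS q (Split q (DetGe q (Out t.1 t.2.1) t.2.2.1)) t.2.2.2)).Countable := Set.countable_range _
  have h6 : (Set.range (fun t : ℕ × Fin 3 × ℕ × Node =>
    {h | t.2.2.1 ≤ ptr q (Out t.1 t.2.1) t.2.2.1 t.2.2.2 h ∧
      Det q (Out t.1 t.2.1) (ptr q (Out t.1 t.2.1) t.2.2.1 t.2.2.2 h)
        (h :: t.2.2.2)})).Countable := Set.countable_range _
  refine (h1.union (h2.union (h3.union (h4.union (h5.union h6))))).mono ?_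
  rintro A ⟨-, h⟩
  rcases h with ⟨n, rfl⟩ | ⟨k, i, x, σ, rfl⟩ | ⟨k, i, x, σ, rfl⟩ | ⟨k, i, x, σ, rfl⟩ |
    ⟨k, i, x, σ, rfl⟩ | ⟨k, i, x, σ, rfl⟩
  · exact Or.inl ⟨n, rfl⟩
  · exact Or.inr (Or.inl ⟨(k, i, x, σ), rfl⟩)
  · exact Or.inr (Or.inr (Or.inl ⟨(k, i, x, σ), rfl⟩))
  · exact Or.inr (Or.inr (Or.inr (Or.inl ⟨(k, i, x, σ), rfl⟩)))
  · exact Or.inr (Or.inr (Or.inr (Or.inr (Or.inl ⟨(k, i, x, σ), rfl⟩))))
  · exact Or.inr (Or.inr (Or.inr (Or.inr (Or.inr ⟨(k, i, x, σ), rfl⟩))))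

/-- the relevant pointers -/
def relPtr (q : Ultrafilter Blk) (Out : ℕ → Fin 3 → (ℕ → ℕ) → ℕ → Prop) : Set (Blk → ℕ) :=
  {X | ∃ k i N σ, Split q (DetGe q (Out k i) N) σ ∧ X = ptr q (Out k i) N σ}

theorem relPtr_countable (q : Ultrafilter Blk) (Out : ℕ → Fin 3 → (ℕ → ℕ) → ℕ → Prop) :
    (relPtr q Out).Countable := by
  refine (Set.countable_range (fun t : ℕ × Fin 3 × ℕ × Node =>
    ptr q (Out t.1 t.2.1) t.2.2.1 t.2.2.2)).mono ?_
  rintro X ⟨k, i, N, σ, -, rfl⟩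
  exact ⟨(k, i, N, σ), rfl⟩

/-- the relevant infinite sets of numbers -/
def relFree (q : Ultrafilter Blk) (Out : ℕ → Fin 3 → (ℕ → ℕ) → ℕ → Prop) : Set (Set ℕ) :=
  {X | X.Infinite ∧ ∃ k i σ, X = {x | Det q (Out k i) x σ}}

theorem relFree_countable (q : Ultrafilter Blk) (Out : ℕ → Fin 3 → (ℕ → ℕ) → ℕ → Prop) :
    (relFree q Out).Countable := by
  refine (Set.countable_range (fun t : ℕ × Fin 3 × Node =>
    {x | Det q (Out t.1 t.2.1) x t.2.2})).mono ?_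
  rintro X ⟨-, k, i, σ, rfl⟩
  exact ⟨(k, i, σ), rfl⟩

/-- the ultrafilters containing all relevant sets -/
def relS (B : Type) [CompleteBooleanAlgebra B] (q : Ultrafilter Blk)
    (Out : ℕ → Fin 3 → (ℕ → ℕ) → ℕ → Prop) : Set (BU Blk B) :=
  {p | ∀ A ∈ relSets q Out, p.val (fun h => bv (h ∈ A)) = ⊤}

theorem base_of {B : Type} [CompleteBooleanAlgebra B] {q : Ultrafilter Blk} (hq : IdemQ q)
    {Out : ℕ → Fin 3 → (ℕ → ℕ) → ℕ → Prop} {K : ℕ → Bool} {E : ℕ → ℕ → Bool}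
    (hfree : ∀ X ∈ relFree q Out, ∀ (N : ℕ) (κ : Bool) (ε : ℕ → Bool),
        ∃ z ∈ X, N ≤ z ∧ K z = κ ∧ ∀ x < N, E x z = ε x) (k : ℕ) :
    Base q K E (relS B q Out) (Out k) where
  big n p hp := hp _ ⟨hq.1 n, Or.inl ⟨n, rfl⟩⟩
  detP i x σ hσ p hp := hp {h | Det q (Out k i) x (h :: σ)}
    ⟨det_persist hq hσ, Or.inr (Or.inl ⟨k, i, x, σ, rfl⟩)⟩
  negP i N σ hσ p hp := hp {h | ¬ Bar q (OutGe (Out k i) N) (h :: σ)}
    ⟨(not_bar hσ).2, Or.inr (Or.inr (Or.inl ⟨k, i, N, σ, rfl⟩))⟩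
  rs1 i x σ hσ p hp := hp _ ⟨hσ, Or.inr (Or.inr (Or.inr (Or.inl ⟨k, i, x, σ, rfl⟩)))⟩
  rs2 i N σ hσ p hp := hp _
    ⟨hσ, Or.inr (Or.inr (Or.inr (Or.inr (Or.inl ⟨k, i, N, σ, rfl⟩))))⟩
  spec i N σ hσ p hp := hp {h | N ≤ ptr q (Out k i) N σ h ∧
      Det q (Out k i) (ptr q (Out k i) N σ h) (h :: σ)}
    ⟨ptr_spec hσ, Or.inr (Or.inr (Or.inr (Or.inr (Or.inr ⟨k, i, N, σ, rfl⟩))))⟩
  free i σ hσ N κ ε := by
    obtain ⟨z, hz, h1, h2, h3⟩ := hfree {x | Det q (Out k i) x σ} ⟨hσ, k, i, σ, rfl⟩ N κ ε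
    exact ⟨z, hz, h1, h2, h3⟩

theorem wf_pers {B : Type} [CompleteBooleanAlgebra B] {S0 : Set (BU Blk B)}
    (hbig : ∀ n, ∀ p ∈ S0, p.val (fun h => bv (h ∈ Big n)) = ⊤) : Pers S0 WF := by
  intro σ hσ p hp
  obtain ⟨M, hM⟩ := wf_cons hσ
  exact top_le_iff.1 (hbig M p hp ▸ p.mono fun h => bv_mono fun hh => hM h hh)

/-- independence of the Cohen reals -/
theorem cohen_indep {B : Type} [CompleteBooleanAlgebra B] {L : Type} [DecidableEq L] {c : L → B}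
    (hc : Cohen c) (f g : ℕ → L) (hf : Function.Injective f) (hg : Function.Injective g)
    (hfg : ∀ m n, f m ≠ g n) (b : B) (hb : b ≠ ⊥) :
    ∃ N, ∀ z ≥ N, b ⊓ (c (f z) ⊓ (c (g z))ᶜ) ≠ ⊥ ∧ b ⊓ (c (g z) ⊓ (c (f z))ᶜ) ≠ ⊥ := by
  obtain ⟨F, ε, hF⟩ := hc.2 b hb
  have h1 : {z | f z ∈ F}.Finite := Set.Finite.preimage hf.injOn F.finite_toSet
  have h2 : {z | g z ∈ F}.Finite := Set.Finite.preimage hg.injOn F.finite_toSet
  obtain ⟨N, hN⟩ := (h1.union h2).bddAbove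
  have key : ∀ z ≥ N + 1, ∀ s : Bool,
      b ⊓ (lit c (fun l => if l = f z then s else if l = g z then !s else ε l) (f z) ⊓
        lit c (fun l => if l = f z then s else if l = g z then !s else ε l) (g z)) ≠ ⊥ := by
    intro z hz s hbot
    have h3 : f z ∉ F := fun h => by have := hN (Or.inl h : z ∈ _); omega
    have h4 : g z ∉ F := fun h => by have := hN (Or.inr h : z ∈ _); omega
    refine hc.1 (insert (f z) (insert (g z) F))
      (fun l => if l = f z then s else if l = g z then !s else ε l) ?_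
    rw [Finset.inf_insert, Finset.inf_insert, ← inf_assoc]
    refine le_bot_iff.1 (le_trans ?_ hbot.le)
    refine le_inf ?_ inf_le_left
    refine inf_le_right.trans (le_trans ?_ hF)
    refine Finset.le_inf fun l hl => ?_
    have h5 : l ≠ f z := fun h => h3 (h ▸ hl)
    have h6 : l ≠ g z := fun h => h4 (h ▸ hl)
    refine (Finset.inf_le hl).trans (le_of_eq ?_)
    simp [lit, h5, h6]
  refine ⟨N + 1, fun z hz => ⟨?_, ?_⟩⟩
  · have := key z hz true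
    have h7 : g z ≠ f z := fun h => hfg z z h.symm
    simpa [lit, h7] using this
  · have := key z hz false
    have h7 : g z ≠ f z := fun h => hfg z z h.symm
    rw [inf_comm (c (g z))]
    simpa [lit, h7] using this

end Pool.Agent.helper79.HT
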