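import Pool.Agent.helper79.HT.Steps

/-!
The pointer lemma and the stage lemma (MP_e6cd9b_lc).
-/

set_option autoImplicit false

namespace Pool.Agent.helper79.HT

variable {B : Type} [CompleteBooleanAlgebra B]

/-- the 3-colouring defined from a kind function and a graph -/
def fcol (K : ℕ → Bool) (E : ℕ → ℕ → Bool) (x y z : ℕ) : Bool :=
  if K y = K z then !(E y z) else if K x = K z then !(E x z) else !(E x y)

/-- facts used at every stage that do not depend on the stage -/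
structure Base (q : Ultrafilter Blk) (K : ℕ → Bool) (E : ℕ → ℕ → Bool) (S0 : Set (BU Blk B))
    (Out : Fin 3 → (ℕ → ℕ) → ℕ → Prop) : Prop where
  big : ∀ n, ∀ p ∈ S0, p.val (fun h => bv (h ∈ Big n)) = ⊤
  detP : ∀ i x, Pers S0 (Det q (Out i) x)
  negP : ∀ i N, Pers S0 (fun σ => ¬ Bar q (OutGe (Out i) N) σ)
  rs1 : ∀ i x σ, RS q (Cert (Out i) x) σ ∈ q → ∀ p ∈ S0,
    p.val (fun h => bv (h ∈ RS q (Cert (Out i) x) σ)) = ⊤
  rs2 : ∀ i N σ, RS q (Split q (DetGe q (Out i) N)) σ ∈ q → ∀ p ∈ S0,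
    p.val (fun h => bv (h ∈ RS q (Split q (DetGe q (Out i) N)) σ)) = ⊤
  spec : ∀ i N σ, Split q (DetGe q (Out i) N) σ → ∀ p ∈ S0,
    p.val (fun h => bv (N ≤ ptr q (Out i) N σ h ∧
      Det q (Out i) (ptr q (Out i) N σ h) (h :: σ))) = ⊤
  free : ∀ i σ, {x | Det q (Out i) x σ}.Infinite → ∀ (N : ℕ) (κ : Bool) (ε : ℕ → Bool),
    ∃ z, Det q (Out i) z σ ∧ N ≤ z ∧ K z = κ ∧ ∀ x < N, E x z = ε x

/-- the centre `p` with its neighbours `r κ` and their types -/
structure Ctr (q : Ultrafilter Blk) (K : ℕ → Bool) (E : ℕ → ℕ → Bool) (S0 : Set (BU Blk B))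
    (Out : Fin 3 → (ℕ → ℕ) → ℕ → Prop) (p : BU Blk B) (r : Bool → BU Blk B)
    (al al' : Bool → ℕ → B) : Prop where
  pS : p ∈ S0
  rS : ∀ κ, r κ ∈ S0
  pp : p * p = p
  pr : ∀ κ, p * r κ = p ∨ p * r κ = r κ
  rp : ∀ κ, r κ * p = p ∨ r κ * p = r κ
  typ : ∀ i N σ, Split q (DetGe q (Out i) N) σ → ∃ κ,
    Typ K E p (ptr q (Out i) N σ) κ (al κ) {al' κ} ∧
    Typ K E (r κ) (ptr q (Out i) N σ) κ (al' κ) {al κ}
  indep : ∀ b : B, b ≠ ⊥ → ∀ κ, ∃ N, ∀ z ≥ N,
    b ⊓ (al κ z ⊓ (al' κ z)ᶜ) ≠ ⊥ ∧ b ⊓ (al' κ z ⊓ (al κ z)ᶜ) ≠ ⊥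

/-- signed Boolean value -/
def sg (s : Bool) (v : B) : B := if s = true then v else vᶜ

theorem typ_sg {K : ℕ → Bool} {E : ℕ → ℕ → Bool} {p : BU Blk B} {X : Blk → ℕ} {κ : Bool}
    {T : ℕ → B} {Oth : Set (ℕ → B)} (h : Typ K E p X κ T Oth) {x : ℕ} (hx : K x = κ) (s : Bool) :
    p.val (fun h => bv (E x (X h) = s)) = sg s (T x) := by
  have h1 := h.2.2.2 x hx
  cases s with
  | true => simpa [sg] using h1
  | false =>
    have h2 : (fun h => (bv (E x (X h) = false) : B)) = fun h => (bv (E x (X h) = true))ᶜ := by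
      funext h
      rw [← bv_not]
      congr 1
      simp
    rw [h2, p.compl, h1]
    simp [sg]

theorem get {q : Ultrafilter Blk} {K : ℕ → Bool} {E : ℕ → ℕ → Bool} {S0 : Set (BU Blk B)}
    {Out : Fin 3 → (ℕ → ℕ) → ℕ → Prop} {p : BU Blk B} {r : Bool → BU Blk B}
    {al al' : Bool → ℕ → B} (hB : Base q K E S0 Out) (hC : Ctr q K E S0 Out p r al al')
    {c : Blk → ℕ} {c0 : ℕ}
    (i : Fin 3) (N : ℕ) (F : List ℕ) (hF : ∀ x ∈ F, x < N) (mode : Bool → Bool)
    (ρ : Bool → ℕ → Bool) (κf : Bool)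
    {P : Node → Prop} (hP : Pers S0 P) {Rs : List (BU Blk B)} (hpR : p ∈ Rs)
    (hkeep : ∀ s ∈ Rs, p * s ∈ Rs) (hev : ∀ κ, mode κ = true → r κ ∈ Rs)
    {σ : Node} {b : B} (hst : St c c0 Rs P σ b)
    (hρ : ∀ κ, ∀ x ∈ F, K x = κ → b ≤ sg (ρ κ x) ((if mode κ = true then al' κ else al κ) x)) :
    (∃ N', ¬ Bar q (OutGe (Out i) N') σ) ∨
    ∃ σ' b' y, σ <:+ σ' ∧ b' ≤ b ∧ N ≤ y ∧ (∀ x ∈ F, K x = K y → E x y = ρ (K y) x) ∧
      b' ≤ (if mode (K y) = true then al' (K y) else al (K y)) y ∧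
      b' ≤ ((if mode (K y) = true then al (K y) else al' (K y)) y)ᶜ ∧
      St c c0 (if mode (K y) = true then [p] else Rs) (fun τ => P τ ∧ Det q (Out i) y τ) σ' b' := by
  by_cases hinf : {x | Det q (Out i) x σ}.Infinite
  · right
    obtain ⟨N1, hN1⟩ := hC.indep b hst.ne κf
    obtain ⟨z, hz1, hz2, hz3, hz4⟩ := hB.free i σ hinf (max N N1) κf (ρ κf)
    have hz5 := hN1 z (le_trans (le_max_right _ _) hz2)
    have hb' : b ⊓ ((if mode κf = true then al' κf else al κf) z ⊓
        ((if mode κf = true then al κf else al' κf) z)ᶜ) ≠ ⊥ := by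
      cases h : mode κf
      · simpa [h] using hz5.1
      · simpa [h] using hz5.2
    refine ⟨σ, _, z, List.suffix_refl _, inf_le_left, le_trans (le_max_left _ _) hz2, ?_, ?_, ?_,
      hst.mono ?_ ⟨hst.prom, hz1⟩ inf_le_left hb'⟩
    · intro x hx _
      rw [hz4 x (lt_of_lt_of_le (hF x hx) (le_max_left _ _)), hz3]
    · rw [hz3]; exact inf_le_right.trans inf_le_left
    · rw [hz3]; exact inf_le_right.trans inf_le_right
    · intro s hs
      split_ifs at hs
      · rw [List.mem_singleton] at hs; rw [hs]; exact hpR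
      · exact hs
  · rw [Set.not_infinite] at hinf
    obtain ⟨N1, hN1⟩ := hinf.bddAbove
    set N2 := max N (N1 + 1) with hN2
    by_cases hbar : Bar q (OutGe (Out i) N2) σ
    · right
      have hbar1 : Bar q (DetGe q (Out i) N2) σ :=
        hbar.mono fun τ ⟨x, hx, hx'⟩ => ⟨x, hx, Bar.base _ hx'⟩
      have hnd : ¬ DetGe q (Out i) N2 σ := by
        rintro ⟨x, hx, hx'⟩
        have h1 : x ≤ N1 := hN1 hx'
        have h2 : N1 + 1 ≤ N2 := le_max_right _ _
        omega
      have hbar2 := bar_split hbar1 hnd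
      obtain ⟨σ1, b1, hs1, hb1, hst1, hsplit⟩ := follow hP hC.pS hpR hkeep
        (fun τ hτ => hB.rs2 i N2 τ hτ p hC.pS) hst hbar2
      obtain ⟨κ, htp, htr⟩ := hC.typ i N2 σ1 hsplit
      set X := ptr q (Out i) N2 σ1 with hX
      -- the ultrafilter used
      set p' := if mode κ = true then r κ else p with hp'
      set T := if mode κ = true then al' κ else al κ with hT
      set T' := if mode κ = true then al κ else al' κ with hT'
      have hp'S : p' ∈ S0 := by
        rw [hp']; split_ifs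
        · exact hC.rS κ
        · exact hC.pS
      have hp'R : p' ∈ Rs := by
        rw [hp']; split_ifs with h
        · exact hev κ h
        · exact hpR
      have htyp : Typ K E p' X κ T {T'} := by
        rw [hp', hT, hT']; split_ifs
        · exact htr
        · exact htp
      have hD : b1 ≤ p'.val (fun h => (bv (N2 ≤ X h ∧ Det q (Out i) (X h) (h :: σ1)) : B) ⊓
          (bv (K (X h) = κ) ⊓ (T (X h) ⊓ ((T' (X h))ᶜ ⊓
            ⨅ x ∈ F, (if K x = κ then bv (E x (X h) = ρ κ x) else ⊤))))) := by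
        refine p'.le_inf ?_ (p'.le_inf ?_ (p'.le_inf ?_ (p'.le_inf ?_ ?_)))
        · rw [hB.spec i N2 σ1 hsplit p' hp'S]; exact le_top
        · rw [htyp.1]; exact le_top
        · rw [htyp.2.1]; exact le_top
        · rw [htyp.2.2.1 T' rfl]; exact le_top
        · refine p'.le_biInf F _ fun x hx => ?_
          by_cases hκ : K x = κ
          · simp only [hκ, if_true]
            rw [typ_sg htyp hκ]
            exact hb1.trans (hρ κ x hx hκ)
          · simp only [hκ, if_false]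
            rw [p'.const]; exact le_top
      have hkeep' : ∀ s ∈ (if mode κ = true then [p] else Rs), s ∈ Rs ∧ p' * s ∈ Rs := by
        intro s hs
        rw [hp']
        split_ifs at hs ⊢ with h
        · rw [List.mem_singleton] at hs
          rw [hs]
          refine ⟨hpR, ?_⟩
          rcases hC.rp κ with h1 | h1
          · rw [h1]; exact hpR
          · rw [h1]; exact hev κ h
        · exact ⟨hs, hkeep s hs⟩
      obtain ⟨h, b', hb', hbD, hst'⟩ := step hP hp'S hst1 hp'R (fun s hs => (hkeep' s hs).1)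
        (fun s hs => (hkeep' s hs).2) _ hD
      have hb'ne := hst'.ne
      have e1 : N2 ≤ X h ∧ Det q (Out i) (X h) (h :: σ1) := of_le_bv hb'ne (hbD.trans inf_le_left)
      have e2 : K (X h) = κ := of_le_bv hb'ne (hbD.trans (inf_le_right.trans inf_le_left))
      have e3 : b' ≤ T (X h) := hbD.trans (inf_le_right.trans (inf_le_right.trans inf_le_left))
      have e4 : b' ≤ (T' (X h))ᶜ :=
        hbD.trans (inf_le_right.trans (inf_le_right.trans (inf_le_right.trans inf_le_left)))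
      have e5 : b' ≤ ⨅ x ∈ F, (if K x = κ then bv (E x (X h) = ρ κ x) else ⊤) :=
        hbD.trans (inf_le_right.trans (inf_le_right.trans (inf_le_right.trans inf_le_right)))
      refine ⟨h :: σ1, b', X h, hs1.trans (List.suffix_cons _ _), hb'.trans hb1,
        le_trans (le_max_left _ _) e1.1, ?_, ?_, ?_, ?_⟩
      · intro x hx hκ
        rw [e2] at hκ ⊢
        have := e5.trans (iInf₂_le x hx)
        rw [if_pos hκ] at this
        exact of_le_bv hb'ne this
      · rw [e2]; exact e3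
      · rw [e2]; exact e4
      · rw [e2]
        exact ⟨hst'.ne, ⟨hst'.prom, e1.2⟩, hst'.col, hst'.alive⟩
    · left; exact ⟨N2, hbar⟩

end Pool.Agent.helper79.HT
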