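import Pool.Agent.helper79.HT.Stage

/-!
The stage lemma (MP_e6cd9b_lc).
-/

set_option autoImplicit false

namespace Pool.Agent.helper79.HT

variable {B : Type} [CompleteBooleanAlgebra B]

/-- `P'` guarantees that `x` is output -/
def Sure (Out : (ℕ → ℕ) → ℕ → Prop) (x : ℕ) (P' : Node → Prop) : Prop :=
  ∃ u σ0, (∀ h : ℕ → ℕ, (∀ m < u, h m = orac σ0 m) → Out h x) ∧
    ∀ τ, P' τ → ∀ m < u, orac τ m = orac σ0 m

theorem Sure.mono {Out : (ℕ → ℕ) → ℕ → Prop} {x : ℕ} {P' P'' : Node → Prop}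
    (h : Sure Out x P') (hP : ∀ τ, P'' τ → P' τ) : Sure Out x P'' := by
  obtain ⟨u, σ0, h1, h2⟩ := h
  exact ⟨u, σ0, h1, fun τ hτ => h2 τ (hP τ hτ)⟩

/-- `P'` guarantees that the functional fails -/
def KillP (q : Ultrafilter Blk) (K : ℕ → Bool) (E : ℕ → ℕ → Bool)
    (Out : Fin 3 → (ℕ → ℕ) → ℕ → Prop) (P' : Node → Prop) : Prop :=
  (∃ i N, ∀ τ, P' τ → ¬ Bar q (OutGe (Out i) N) τ) ∨
  ∃ x y z x' y' z', x < y ∧ y < z ∧ x' < y' ∧ y' < z' ∧
    fcol K E x y z ≠ fcol K E x' y' z' ∧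
    Sure (Out 0) x P' ∧ Sure (Out 1) y P' ∧ Sure (Out 2) z P' ∧
    Sure (Out 0) x' P' ∧ Sure (Out 1) y' P' ∧ Sure (Out 2) z' P'

section

variable {q : Ultrafilter Blk} {K : ℕ → Bool} {E : ℕ → ℕ → Bool} {S0 : Set (BU Blk B)}
    {Out : Fin 3 → (ℕ → ℕ) → ℕ → Prop} {p : BU Blk B} {r : Bool → BU Blk B}
    {al al' : Bool → ℕ → B} {c : Blk → ℕ} {c0 : ℕ}

/-- negative outcome -/
def Killed (q : Ultrafilter Blk) (S0 : Set (BU Blk B))
    (Out : Fin 3 → (ℕ → ℕ) → ℕ → Prop) (p : BU Blk B) (c : Blk → ℕ) (c0 : ℕ)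
    (P : Node → Prop) (σ : Node) : Prop :=
  ∃ σ' b' P', σ <:+ σ' ∧ Pers S0 P' ∧ (∀ τ, P' τ → P τ) ∧ St c c0 [p] P' σ' b' ∧
    ∃ i N, ∀ τ, P' τ → ¬ Bar q (OutGe (Out i) N) τ

theorem killed_of (hB : Base q K E S0 Out) {P P0 : Node → Prop} (hP : Pers S0 P)
    (hPP : ∀ τ, P τ → P0 τ) {Rs : List (BU Blk B)} (hpR : p ∈ Rs) {σ σ0 : Node} {b : B}
    (hσ : σ0 <:+ σ) (hst : St c c0 Rs P σ b) {i : Fin 3}
    (h : ∃ N', ¬ Bar q (OutGe (Out i) N') σ) : Killed q S0 Out p c c0 P0 σ0 := by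
  obtain ⟨N', hN'⟩ := h
  refine ⟨σ, b, fun τ => P τ ∧ ¬ Bar q (OutGe (Out i) N') τ, hσ, hP.and (hB.negP i N'),
    fun τ hτ => hPP τ hτ.1, hst.mono ?_ ⟨hst.prom, hN'⟩ le_rfl hst.ne, i, N', fun τ hτ => hτ.2⟩
  intro s hs
  rw [List.mem_singleton] at hs; rw [hs]; exact hpR

theorem agree_pers (hB : Base q K E S0 Out) (u : ℕ) (σ0 : Node) :
    Pers S0 (fun τ => ∀ m < u, orac τ m = orac σ0 m) := by
  intro τ hτ p hp
  have h1 := hB.big u p hp
  refine top_le_iff.1 (h1 ▸ p.mono fun h => ?_)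
  refine bv_mono fun hh m hm => ?_
  rw [orac_cons hh m hm, hτ m hm]

theorem certify (hB : Base q K E S0 Out) (hpS : p ∈ S0) {i : Fin 3} {x : ℕ}
    {P : Node → Prop} (hP : Pers S0 P) (hdet : ∀ τ, P τ → Det q (Out i) x τ)
    {Rs : List (BU Blk B)} (hpR : p ∈ Rs) (hkeep : ∀ s ∈ Rs, p * s ∈ Rs)
    {σ : Node} {b : B} (hst : St c c0 Rs P σ b) :
    ∃ σ' b' P', σ <:+ σ' ∧ b' ≤ b ∧ Pers S0 P' ∧ (∀ τ, P' τ → P τ) ∧ St c c0 Rs P' σ' b' ∧
      Sure (Out i) x P' := by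
  obtain ⟨σ', b', h1, h2, h3, u, hu⟩ := follow hP hpS hpR hkeep
    (fun τ hτ => hB.rs1 i x τ hτ p hpS) hst (hdet σ hst.prom)
  exact ⟨σ', b', fun τ => P τ ∧ ∀ m < u, orac τ m = orac σ' m, h1, h2,
    hP.and (agree_pers hB u σ'), fun τ hτ => hτ.1,
    h3.mono (fun _ h => h) ⟨h3.prom, fun _ _ => rfl⟩ le_rfl h3.ne, u, σ', hu, fun τ hτ => hτ.2⟩

theorem certify3 (hB : Base q K E S0 Out) (hpS : p ∈ S0) {x y z : ℕ}
    {P : Node → Prop} (hP : Pers S0 P)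
    (hdet : ∀ τ, P τ → Det q (Out 0) x τ ∧ Det q (Out 1) y τ ∧ Det q (Out 2) z τ)
    {Rs : List (BU Blk B)} (hpR : p ∈ Rs) (hkeep : ∀ s ∈ Rs, p * s ∈ Rs)
    {σ : Node} {b : B} (hst : St c c0 Rs P σ b) :
    ∃ σ' b' P', σ <:+ σ' ∧ b' ≤ b ∧ Pers S0 P' ∧ (∀ τ, P' τ → P τ) ∧ St c c0 Rs P' σ' b' ∧
      Sure (Out 0) x P' ∧ Sure (Out 1) y P' ∧ Sure (Out 2) z P' := by
  obtain ⟨σ1, b1, P1, s1, l1, p1, i1, st1, u1⟩ := certify hB hpS hP
    (fun τ hτ => (hdet τ hτ).1) hpR hkeep hst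
  obtain ⟨σ2, b2, P2, s2, l2, p2, i2, st2, u2⟩ := certify hB hpS p1
    (fun τ hτ => (hdet τ (i1 τ hτ)).2.1) hpR hkeep st1
  obtain ⟨σ3, b3, P3, s3, l3, p3, i3, st3, u3⟩ := certify hB hpS p2
    (fun τ hτ => (hdet τ (i1 τ (i2 τ hτ))).2.2) hpR hkeep st2
  exact ⟨σ3, b3, P3, s1.trans (s2.trans s3), l3.trans (l2.trans l1), p3,
    fun τ hτ => i1 τ (i2 τ (i3 τ hτ)), st3, u1.mono fun τ hτ => i2 τ (i3 τ hτ),
    u2.mono fun τ hτ => i3 τ hτ, u3⟩

theorem trip0 (hB : Base q K E S0 Out) (hC : Ctr q K E S0 Out p r al al')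
    {P : Node → Prop} (hP : Pers S0 P) {Rs : List (BU Blk B)} (hpR : p ∈ Rs)
    (hkeep : ∀ s ∈ Rs, p * s ∈ Rs) {σ : Node} {b : B} (hst : St c c0 Rs P σ b) :
    Killed q S0 Out p c c0 P σ ∨
    ∃ σ' b' P' x y z, σ <:+ σ' ∧ b' ≤ b ∧ Pers S0 P' ∧ (∀ τ, P' τ → P τ) ∧
      St c c0 Rs P' σ' b' ∧ x < y ∧ y < z ∧ fcol K E x y z = false ∧
      (∀ τ, P' τ → Det q (Out 0) x τ ∧ Det q (Out 1) y τ ∧ Det q (Out 2) z τ) := by
  rcases get hB hC 0 0 [] (by simp) (fun _ => false) (fun _ _ => true) false hP hpR hkeep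
    (by simp) hst (by simp) with h | ⟨σ1, b1, x, s1, l1, -, -, a1, a1', st1⟩
  · exact Or.inl (killed_of hB hP (fun _ h => h) hpR (List.suffix_refl _) hst h)
  simp only [Bool.false_eq_true, if_false] at a1 a1' st1
  have hP1 := hP.and (hB.detP 0 x)
  rcases get hB hC 1 (x + 1) [x] (by simp) (fun _ => false) (fun _ _ => true) false hP1 hpR hkeep
    (by simp) st1 (by
      intro κ w hw hκ
      rw [List.mem_singleton] at hw
      subst hw
      simpa [sg, ← hκ] using a1) with h | ⟨σ2, b2, y, s2, l2, n2, e2, a2, a2', st2⟩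
  · exact Or.inl (killed_of hB hP1 (fun _ h => h.1) hpR s1 st1 h)
  simp only [Bool.false_eq_true, if_false] at a2 a2' st2
  have hP2 := hP1.and (hB.detP 1 y)
  rcases get hB hC 2 (y + 1) [x, y] (by simp; omega) (fun _ => false) (fun _ _ => true) false hP2
    hpR hkeep (by simp) st2 (by
      intro κ w hw hκ
      simp only [List.mem_cons, List.not_mem_nil, or_false] at hw
      rcases hw with rfl | rfl
      · simpa [sg, ← hκ] using l2.trans a1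
      · simpa [sg, ← hκ] using a2) with h | ⟨σ3, b3, z, s3, l3, n3, e3, a3, a3', st3⟩
  · exact Or.inl (killed_of hB hP2 (fun _ h => h.1.1) hpR (s1.trans s2) st2 h)
  simp only [Bool.false_eq_true, if_false] at a3 a3' st3
  refine Or.inr ⟨σ3, b3, _, x, y, z, s1.trans (s2.trans s3), l3.trans (l2.trans l1),
    hP2.and (hB.detP 2 z), fun τ hτ => hτ.1.1.1, st3, by omega, by omega, ?_,
    fun τ hτ => ⟨hτ.1.1.2, hτ.1.2, hτ.2⟩⟩
  have g1 := e2 x (by simp)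
  have g2 := e3 x (by simp)
  have g3 := e3 y (by simp)
  unfold fcol
  cases hx : K x <;> cases hy : K y <;> cases hz : K z <;> simp_all

theorem trip1 (hB : Base q K E S0 Out) (hC : Ctr q K E S0 Out p r al al')
    {P : Node → Prop} (hP : Pers S0 P) {Rs : List (BU Blk B)} (hpR : p ∈ Rs)
    (hrR : ∀ κ, r κ ∈ Rs)
    (hkeep : ∀ s ∈ Rs, p * s ∈ Rs) {σ : Node} {b : B} (hst : St c c0 Rs P σ b) :
    Killed q S0 Out p c c0 P σ ∨
    ∃ σ' b' P' x y z, σ <:+ σ' ∧ b' ≤ b ∧ Pers S0 P' ∧ (∀ τ, P' τ → P τ) ∧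
      St c c0 [p] P' σ' b' ∧ x < y ∧ y < z ∧ fcol K E x y z = true ∧
      (∀ τ, P' τ → Det q (Out 0) x τ ∧ Det q (Out 1) y τ ∧ Det q (Out 2) z τ) := by
  rcases get hB hC 0 0 [] (by simp) (fun _ => false) (fun _ _ => true) false hP hpR hkeep
    (by simp) hst (by simp) with h | ⟨σ1, b1, x, s1, l1, -, -, a1, a1', st1⟩
  · exact Or.inl (killed_of hB hP (fun _ h => h) hpR (List.suffix_refl _) hst h)
  simp only [Bool.false_eq_true, if_false] at a1 a1' st1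
  have hP1 := hP.and (hB.detP 0 x)
  rcases get hB hC 1 (x + 1) [x] (by simp) (fun κ => κ == K x) (fun _ _ => false) (K x) hP1 hpR
    hkeep (fun κ _ => hrR κ) st1 (by
      intro κ w hw hκ
      rw [List.mem_singleton] at hw
      subst hw
      simpa [sg, ← hκ] using a1') with h | ⟨σ2, b2, y, s2, l2, n2, e2, a2, a2', st2⟩
  · exact Or.inl (killed_of hB hP1 (fun _ h => h.1) hpR s1 st1 h)
  have hP2 := hP1.and (hB.detP 1 y)
  have g1 := e2 x (by simp)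
  by_cases hyx : K y = K x
  · simp only [hyx, beq_self_eq_true, if_true] at a2 a2' st2
    rcases get hB hC 2 (y + 1) [y] (by simp) (fun _ => false) (fun _ _ => false) false hP2
      (List.mem_singleton.2 rfl) (by simp [hC.pp]) (by simp) st2 (by
        intro κ w hw hκ
        simp only [List.mem_singleton] at hw
        subst hw
        rw [hyx] at hκ
        simpa [sg, ← hκ] using a2') with h | ⟨σ3, b3, z, s3, l3, n3, e3, a3, a3', st3⟩
    · exact Or.inl (killed_of hB hP2 (fun _ h => h.1.1) (List.mem_singleton.2 rfl)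
        (s1.trans s2) st2 h)
    simp only [Bool.false_eq_true, if_false] at a3 a3' st3
    refine Or.inr ⟨σ3, b3, _, x, y, z, s1.trans (s2.trans s3), l3.trans (l2.trans l1),
      hP2.and (hB.detP 2 z), fun τ hτ => hτ.1.1.1, st3, by omega, by omega, ?_,
      fun τ hτ => ⟨hτ.1.1.2, hτ.1.2, hτ.2⟩⟩
    have g3 := e3 y (by simp)
    unfold fcol
    cases hx : K x <;> cases hy : K y <;> cases hz : K z <;> simp_all
  · have hyx' : (K y == K x) = false := by simpa using hyx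
    simp only [hyx', Bool.false_eq_true, if_false] at a2 a2' st2
    rcases get hB hC 2 (y + 1) [x, y] (by simp; omega) (fun _ => true) (fun _ _ => false) false hP2
      hpR hkeep (fun κ _ => hrR κ) st2 (by
        intro κ w hw hκ
        simp only [List.mem_cons, List.not_mem_nil, or_false] at hw
        rcases hw with rfl | rfl
        · simpa [sg, ← hκ] using l2.trans a1'
        · simpa [sg, ← hκ] using a2') with h | ⟨σ3, b3, z, s3, l3, n3, e3, a3, a3', st3⟩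
    · exact Or.inl (killed_of hB hP2 (fun _ h => h.1.1) hpR (s1.trans s2) st2 h)
    simp only [if_true] at a3 a3' st3
    refine Or.inr ⟨σ3, b3, _, x, y, z, s1.trans (s2.trans s3), l3.trans (l2.trans l1),
      hP2.and (hB.detP 2 z), fun τ hτ => hτ.1.1.1, st3, by omega, by omega, ?_,
      fun τ hτ => ⟨hτ.1.1.2, hτ.1.2, hτ.2⟩⟩
    have g2 := e3 x (by simp)
    have g3 := e3 y (by simp)
    unfold fcol
    cases hx : K x <;> cases hy : K y <;> cases hz : K z <;> simp_all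

theorem stage (hB : Base q K E S0 Out) (hC : Ctr q K E S0 Out p r al al')
    {P : Node → Prop} (hP : Pers S0 P) {Rs : List (BU Blk B)} (hpR : p ∈ Rs)
    (hrR : ∀ κ, r κ ∈ Rs)
    (hkeep : ∀ s ∈ Rs, p * s ∈ Rs) {σ : Node} {b : B} (hst : St c c0 Rs P σ b) :
    ∃ σ' b' P', σ <:+ σ' ∧ Pers S0 P' ∧ (∀ τ, P' τ → P τ) ∧
      St c c0 [p] P' σ' b' ∧ KillP q K E Out P' := by
  rcases trip0 hB hC hP hpR hkeep hst with h | ⟨σ1, b1, P1, x, y, z, s1, l1, p1, i1, st1, hxy, hyz,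
    hf, hd⟩
  · obtain ⟨σ', b', P', s, hp, hi, hs, hk⟩ := h
    exact ⟨σ', b', P', s, hp, hi, hs, Or.inl hk⟩
  obtain ⟨σ2, b2, P2, s2, l2, p2, i2, st2, u1, u2, u3⟩ := certify3 hB hC.pS p1 hd hpR hkeep st1
  rcases trip1 hB hC p2 hpR hrR hkeep st2 with h | ⟨σ3, b3, P3, x', y', z', s3, l3, p3, i3, st3,
    hxy', hyz', hf', hd'⟩
  · obtain ⟨σ', b', P', s, hp, hi, hs, hk⟩ := h
    exact ⟨σ', b', P', s1.trans (s2.trans s), hp, fun τ hτ => i1 τ (i2 τ (hi τ hτ)), hs,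
      Or.inl hk⟩
  obtain ⟨σ4, b4, P4, s4, l4, p4, i4, st4, v1, v2, v3⟩ := certify3 hB hC.pS p3 hd'
    (List.mem_singleton.2 rfl) (by simp [hC.pp]) st3
  refine ⟨σ4, b4, P4, s1.trans (s2.trans (s3.trans s4)), p4,
    fun τ hτ => i1 τ (i2 τ (i3 τ (i4 τ hτ))), st4, Or.inr ⟨x, y, z, x', y', z', hxy, hyz, hxy',
    hyz', by rw [hf, hf']; simp, ?_, ?_, ?_, v1, v2, v3⟩⟩
  · exact u1.mono fun τ hτ => i3 τ (i4 τ hτ)
  · exact u2.mono fun τ hτ => i3 τ (i4 τ hτ)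
  · exact u3.mono fun τ hτ => i3 τ (i4 τ hτ)

end

end Pool.Agent.helper79.HT
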