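import Pool.Agent.helper79.HT.Basic
import Pool.Agent.helper79.HT.Bars

/-!
States, steps and the pointer lemma (MP_e6cd9b_lc).
-/

set_option autoImplicit false

namespace Pool.Agent.helper79.HT

/-- ordinal-ranked bars -/
inductive BarO (q : Ultrafilter Blk) (Q : Node → Prop) : Ordinal.{0} → Node → Prop
  | base (α : Ordinal.{0}) (σ : Node) : Q σ → BarO q Q α σ
  | lim (α : Ordinal.{0}) (σ : Node) (A : Set Blk) (hA : A ∈ q) (β : Blk → Ordinal.{0})
      (hβ : ∀ h ∈ A, β h < α) (hh : ∀ h ∈ A, BarO q Q (β h) (h :: σ)) : BarO q Q α σ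

theorem Bar.exists_rank {q : Ultrafilter Blk} {Q : Node → Prop} {σ : Node} (h : Bar q Q σ) :
    ∃ α, BarO q Q α σ := by
  induction h with
  | base σ h => exact ⟨0, .base 0 σ h⟩
  | lim σ A hA _ ih =>
    choose! β hβ using ih
    exact ⟨Order.succ (⨆ h : Blk, β h), BarO.lim _ σ A hA β
      (fun h _ => Order.lt_succ_of_le (le_ciSup (Ordinal.bddAbove_range β) h)) hβ⟩

theorem BarO.bar {q : Ultrafilter Blk} {Q : Node → Prop} {α : Ordinal.{0}} {σ : Node}
    (h : BarO q Q α σ) : Bar q Q σ := by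
  induction h with
  | base _ _ h => exact Bar.base _ h
  | lim _ _ A hA _ _ _ ih => exact Bar.lim _ A hA ih

/-- rank of a barred node -/
noncomputable def rk (q : Ultrafilter Blk) (Q : Node → Prop) (σ : Node) : Ordinal.{0} :=
  sInf {α | BarO q Q α σ}

/-- canonical set at a barred node -/
def RS (q : Ultrafilter Blk) (Q : Node → Prop) (σ : Node) : Set Blk :=
  {h | ∃ β < rk q Q σ, BarO q Q β (h :: σ)}

theorem RS_mem' {q : Ultrafilter Blk} {Q : Node → Prop} {σ : Node} (h : ∃ α, BarO q Q α σ)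
    (hn : ¬ Q σ) : RS q Q σ ∈ q := by
  have h1 : BarO q Q (rk q Q σ) σ := csInf_mem (s := {α | BarO q Q α σ}) h
  generalize hα : rk q Q σ = α at h1
  cases h1 with
  | base _ _ h => exact absurd h hn
  | lim _ _ A hA β hβ hh =>
    refine Filter.mem_of_superset hA fun h hh' => ⟨β h, ?_, hh h hh'⟩
    rw [hα]; exact hβ h hh'

section state

variable {B : Type} [CompleteBooleanAlgebra B]

/-- Boolean value of: blocks of `p` have colour `c0` after `w` -/
noncomputable def Colr (c : Blk → ℕ) (c0 : ℕ) (p : BU Blk B) (w : Blk) : B :=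
  p.val (fun t => bv (c (w * t) = c0))

/-- all sums, including the empty one -/
def fsl : Node → List Blk
  | [] => [1]
  | h :: σ => fsl σ ++ (fsl σ).map (fun w => w * h)

/-- all nonempty sums -/
def nes : Node → List Blk
  | [] => []
  | h :: σ => nes σ ++ (fsl σ).map (fun w => w * h)

/-- states of the construction -/
structure St (c : Blk → ℕ) (c0 : ℕ) (Rs : List (BU Blk B)) (P : Node → Prop) (σ : Node)
    (b : B) : Prop where
  ne : b ≠ ⊥
  prom : P σ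
  col : ∀ w ∈ nes σ, c w = c0
  alive : ∀ r ∈ Rs, ∀ w ∈ fsl σ, b ≤ Colr c c0 r w

/-- persistent predicates -/
def Pers (S0 : Set (BU Blk B)) (P : Node → Prop) : Prop :=
  ∀ σ, P σ → ∀ p ∈ S0, p.val (fun h => bv (P (h :: σ))) = ⊤

theorem Pers.and {S0 : Set (BU Blk B)} {P Q : Node → Prop} (hP : Pers S0 P) (hQ : Pers S0 Q) :
    Pers S0 (fun σ => P σ ∧ Q σ) := by
  intro σ hσ p hp
  have h1 : (fun h => (bv (P (h :: σ) ∧ Q (h :: σ)) : B)) =
      fun h => bv (P (h :: σ)) ⊓ bv (Q (h :: σ)) := by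
    funext h; exact bv_and _ _
  rw [h1, p.inf, hP σ hσ.1 p hp, hQ σ hσ.2 p hp, inf_top_eq]

theorem St.mono {c : Blk → ℕ} {c0 : ℕ} {Rs Rs' : List (BU Blk B)} {P P' : Node → Prop}
    {σ : Node} {b b' : B} (h : St c c0 Rs P σ b) (hR : ∀ r ∈ Rs', r ∈ Rs) (hP : P' σ)
    (hb : b' ≤ b) (hb' : b' ≠ ⊥) : St c c0 Rs' P' σ b' :=
  ⟨hb', hP, h.col, fun r hr w hw => hb.trans (h.alive r (hR r hr) w hw)⟩

theorem BU.le_biInf {S : Type*} (p : BU S B) {ι : Type*} (l : List ι) (A : ι → S → B) {b : B}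
    (h : ∀ i ∈ l, b ≤ p.val (A i)) : b ≤ p.val (fun s => ⨅ i ∈ l, A i s) := by
  induction l with
  | nil => simp [p.val_top]
  | cons a l ih =>
    have h1 : (fun s => ⨅ i ∈ a :: l, A i s) = fun s => A a s ⊓ ⨅ i ∈ l, A i s := by
      funext s
      simp only [List.mem_cons, iInf_or, iInf_inf_eq, iInf_iInf_eq_left]
    rw [h1]
    exact p.le_inf (h a (by simp)) (ih fun i hi => h i (by simp [hi]))

theorem step {c : Blk → ℕ} {c0 : ℕ} {S0 : Set (BU Blk B)} {P : Node → Prop} (hP : Pers S0 P)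
    {Rs Rs' : List (BU Blk B)} {p' : BU Blk B} (hp' : p' ∈ S0) {σ : Node} {b : B}
    (hst : St c c0 Rs P σ b) (hp'R : p' ∈ Rs) (hsub : ∀ r ∈ Rs', r ∈ Rs)
    (hkeep : ∀ r ∈ Rs', p' * r ∈ Rs) (D : Blk → B) (hD : b ≤ p'.val D) :
    ∃ h, ∃ b' ≤ b, b' ≤ D h ∧ St c c0 Rs' P (h :: σ) b' := by
  have h1 : b ≤ p'.val (fun h => D h ⊓ (bv (P (h :: σ)) ⊓
      ((⨅ w ∈ fsl σ, bv (c (w * h) = c0)) ⊓
        (⨅ r ∈ Rs', ⨅ w ∈ fsl σ, Colr c c0 r (w * h))))) := by
    refine p'.le_inf hD (p'.le_inf ?_ (p'.le_inf ?_ ?_))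
    · rw [hP σ hst.prom p' hp']; exact le_top
    · exact p'.le_biInf _ _ fun w hw => hst.alive p' hp'R w hw
    · refine p'.le_biInf _ _ fun r hr => p'.le_biInf _ _ fun w hw => ?_
      have h2 := hst.alive _ (hkeep r hr) w hw
      unfold Colr at h2 ⊢
      rw [BU.mul_val] at h2
      simpa only [mul_assoc] using h2
  obtain ⟨h, hh⟩ := p'.exists_ne hst.ne h1
  refine ⟨h, _, inf_le_left, ?_, ⟨hh, ?_, ?_, ?_⟩⟩
  · exact inf_le_right.trans inf_le_left
  · have : b ⊓ (D h ⊓ (bv (P (h :: σ)) ⊓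
      ((⨅ w ∈ fsl σ, bv (c (w * h) = c0)) ⊓
        (⨅ r ∈ Rs', ⨅ w ∈ fsl σ, Colr c c0 r (w * h))))) ≤ bv (P (h :: σ)) :=
      inf_le_right.trans (inf_le_right.trans inf_le_left)
    exact of_le_bv hh this
  · intro w hw
    rw [nes, List.mem_append, List.mem_map] at hw
    rcases hw with hw | ⟨w, hw, rfl⟩
    · exact hst.col w hw
    · have : b ⊓ (D h ⊓ (bv (P (h :: σ)) ⊓
      ((⨅ w ∈ fsl σ, bv (c (w * h) = c0)) ⊓
        (⨅ r ∈ Rs', ⨅ w ∈ fsl σ, Colr c c0 r (w * h))))) ≤ bv (c (w * h) = c0) :=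
        inf_le_right.trans (inf_le_right.trans (inf_le_right.trans (inf_le_left.trans
          (iInf₂_le w hw))))
      exact of_le_bv hh this
  · intro r hr w hw
    rw [fsl, List.mem_append, List.mem_map] at hw
    rcases hw with hw | ⟨w, hw, rfl⟩
    · exact inf_le_left.trans (hst.alive r (hsub r hr) w hw)
    · exact inf_le_right.trans (inf_le_right.trans (inf_le_right.trans (inf_le_right.trans
          ((iInf₂_le r hr).trans (iInf₂_le w hw)))))

theorem follow {c : Blk → ℕ} {c0 : ℕ} {S0 : Set (BU Blk B)} {P : Node → Prop} (hP : Pers S0 P)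
    {Rs : List (BU Blk B)} {p : BU Blk B} (hp : p ∈ S0) (hpR : p ∈ Rs)
    (hkeep : ∀ r ∈ Rs, p * r ∈ Rs) {q : Ultrafilter Blk} {Q : Node → Prop}
    (hRS : ∀ σ, RS q Q σ ∈ q → p.val (fun h => bv (h ∈ RS q Q σ)) = ⊤)
    {σ : Node} {b : B} (hst : St c c0 Rs P σ b) (hbar : Bar q Q σ) :
    ∃ σ' b', σ <:+ σ' ∧ b' ≤ b ∧ St c c0 Rs P σ' b' ∧ Q σ' := by
  obtain ⟨α, hα⟩ := hbar.exists_rank
  induction α using WellFoundedLT.induction generalizing σ b with
  | ind α ih =>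
    by_cases hQ : Q σ
    · exact ⟨σ, b, List.suffix_refl _, le_rfl, hst, hQ⟩
    · have h1 := RS_mem' ⟨α, hα⟩ hQ
      obtain ⟨h, b', hb', hbD, hst'⟩ := step hP hp hst hpR (fun r hr => hr) hkeep
        (fun h => bv (h ∈ RS q Q σ)) (by rw [hRS σ h1]; exact le_top)
      obtain ⟨β, hβ, hβ'⟩ := of_le_bv hst'.ne hbD
      have h2 : rk q Q σ ≤ α := csInf_le' hα
      obtain ⟨σ', b'', h3, h4, h5, h6⟩ := ih β (hβ.trans_le h2) hst' hβ'.bar hβ'
      exact ⟨σ', b'', (List.suffix_cons h σ).trans h3, h4.trans hb', h5, h6⟩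

end state

end Pool.Agent.helper79.HT
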