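import Pool.Agent.helper79.HT.Stage2

/-!
Well-formed nodes, sums, limits (MP_e6cd9b_lc).
-/

set_option autoImplicit false

namespace Pool.Agent.helper79.HT

/-- well-formed nodes: nonempty blocks, increasing -/
def WF : Node → Prop
  | [] => True
  | h :: σ => WF σ ∧ (show Finset ℕ from h).Nonempty ∧
      ∀ g ∈ σ, ∀ a ∈ (show Finset ℕ from g), ∀ a' ∈ (show Finset ℕ from h), a < a'

theorem exists_bound (σ : Node) : ∃ M, ∀ g ∈ σ, ∀ a ∈ (show Finset ℕ from g), a < M := by
  induction σ with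
  | nil => exact ⟨0, by simp⟩
  | cons h σ ih =>
    obtain ⟨M, hM⟩ := ih
    refine ⟨max M ((show Finset ℕ from h).sup id + 1), fun g hg a ha => ?_⟩
    rcases List.mem_cons.1 hg with rfl | hg
    · have : a ≤ (show Finset ℕ from g).sup id := Finset.le_sup (f := id) ha
      exact lt_of_lt_of_le (Nat.lt_succ_of_le this) (le_max_right _ _)
    · exact lt_of_lt_of_le (hM g hg a ha) (le_max_left _ _)

theorem wf_cons {σ : Node} (h : WF σ) : ∃ M, ∀ g ∈ Big M, WF (g :: σ) := by
  obtain ⟨M, hM⟩ := exists_bound σ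
  exact ⟨M, fun g hg => ⟨h, hg.1, fun g' hg' a ha a' ha' => lt_of_lt_of_le (hM g' hg' a ha)
    (hg.2 a' ha')⟩⟩

theorem num_mul {s t : Blk} (h : Disjoint (show Finset ℕ from s) (show Finset ℕ from t)) :
    num (s * t) = num s + num t := by
  unfold num
  exact Finset.sum_union h

theorem num_one : num (1 : Blk) = 0 := by
  unfold num
  exact Finset.sum_empty

theorem num_pos {s : Blk} (h : (show Finset ℕ from s).Nonempty) : 0 < num s := by
  unfold num
  exact Finset.sum_pos (fun _ _ => by positivity) h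

theorem mem_fsl {σ : Node} {w : Blk} (hw : w ∈ fsl σ) : w = 1 ∨ w ∈ nes σ := by
  induction σ generalizing w with
  | nil => simp [fsl] at hw; exact Or.inl hw
  | cons h σ ih =>
    rw [fsl, List.mem_append] at hw
    rcases hw with hw | hw
    · rcases ih hw with h1 | h1
      · exact Or.inl h1
      · right; rw [nes, List.mem_append]; exact Or.inl h1
    · right; rw [nes, List.mem_append]; exact Or.inr hw

theorem one_mem_fsl (σ : Node) : (1 : Blk) ∈ fsl σ := by
  induction σ with
  | nil => simp [fsl]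
  | cons h σ ih => rw [fsl, List.mem_append]; exact Or.inl ih

theorem nes_sub_fsl {σ : Node} {w : Blk} (hw : w ∈ nes σ) : w ∈ fsl σ := by
  induction σ generalizing w with
  | nil => simp [nes] at hw
  | cons h σ ih =>
    rw [nes, List.mem_append] at hw
    rw [fsl, List.mem_append]
    rcases hw with hw | hw
    · exact Or.inl (ih hw)
    · exact Or.inr hw

theorem fsl_sub {σ : Node} {w : Blk} (hw : w ∈ fsl σ) :
    ∀ a ∈ (show Finset ℕ from w), ∃ g ∈ σ, a ∈ (show Finset ℕ from g) := by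
  induction σ generalizing w with
  | nil =>
    simp [fsl] at hw
    subst hw
    intro a ha
    exact absurd ha (Finset.notMem_empty a)
  | cons h σ ih =>
    rw [fsl, List.mem_append, List.mem_map] at hw
    rcases hw with hw | ⟨w, hw, rfl⟩
    · intro a ha
      obtain ⟨g, hg, hg'⟩ := ih hw a ha
      exact ⟨g, by simp [hg], hg'⟩
    · intro a ha
      rcases Finset.mem_union.1 ha with ha | ha
      · obtain ⟨g, hg, hg'⟩ := ih hw a ha
        exact ⟨g, by simp [hg], hg'⟩
      · exact ⟨h, by simp, ha⟩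

/-- sums of members are codes of sums -/
theorem sum_mem {σ : Node} (hσ : WF σ) (F : Finset ℕ) (hF : ∀ a ∈ F, ∃ g ∈ σ, num g = a) :
    ∃ w ∈ fsl σ, num w = ∑ a ∈ F, a ∧ (F.Nonempty → w ∈ nes σ) := by
  induction σ generalizing F with
  | nil =>
    have : F = ∅ := by
      rw [Finset.eq_empty_iff_forall_notMem]
      intro a ha
      obtain ⟨g, hg, -⟩ := hF a ha
      simp at hg
    subst this
    exact ⟨1, by simp [fsl], by simp [num_one], by simp⟩
  | cons h σ ih =>
    by_cases hh : num h ∈ F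
    · obtain ⟨w, hw, hw', -⟩ := ih hσ.1 (F.erase (num h)) (fun a ha => by
        rw [Finset.mem_erase] at ha
        obtain ⟨g, hg, hg'⟩ := hF a ha.2
        rcases List.mem_cons.1 hg with rfl | hg
        · exact absurd hg'.symm ha.1
        · exact ⟨g, hg, hg'⟩)
      have hmem : w * h ∈ (fsl σ).map (fun w => w * h) := List.mem_map.2 ⟨w, hw, rfl⟩
      refine ⟨w * h, ?_, ?_, fun _ => ?_⟩
      · rw [fsl, List.mem_append]; exact Or.inr hmem
      · rw [num_mul, hw', ← Finset.sum_erase_add F _ hh]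
        rw [Finset.disjoint_left]
        intro a ha ha'
        obtain ⟨g, hg, hg'⟩ := fsl_sub hw a ha
        exact lt_irrefl _ (hσ.2.2 g hg a hg' a ha')
      · rw [nes, List.mem_append]; exact Or.inr hmem
    · obtain ⟨w, hw, hw', hw''⟩ := ih hσ.1 F (fun a ha => by
        obtain ⟨g, hg, hg'⟩ := hF a ha
        rcases List.mem_cons.1 hg with rfl | hg
        · exact absurd (hg' ▸ ha) hh
        · exact ⟨g, hg, hg'⟩)
      refine ⟨w, ?_, hw', fun hn => ?_⟩
      · rw [fsl, List.mem_append]; exact Or.inl hw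
      · rw [nes, List.mem_append]; exact Or.inl (hw'' hn)

section lim

variable {s : ℕ → Node} (hs : ∀ n, s n <:+ s (n + 1))

include hs in
theorem suffix_le {m n : ℕ} (h : m ≤ n) : s m <:+ s n := by
  induction h with
  | refl => exact List.suffix_refl _
  | step _ ih => exact ih.trans (hs _)

/-- characteristic function of the set of all codes -/
noncomputable def limH (s : ℕ → Node) : ℕ → ℕ :=
  fun m => open Classical in if ∃ n, ∃ g ∈ s n, num g = m then 1 else 0

theorem limH_le (s : ℕ → Node) (m : ℕ) : limH s m ≤ 1 := by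
  unfold limH; split_ifs <;> omega

theorem limH_eq_one {s : ℕ → Node} {m : ℕ} (h : limH s m = 1) : ∃ n, ∃ g ∈ s n, num g = m := by
  unfold limH at h
  split_ifs at h with h1
  · exact h1

include hs in
theorem orac_lim (u : ℕ) : ∃ n0, ∀ n ≥ n0, ∀ m < u, orac (s n) m = limH s m := by
  induction u with
  | zero => exact ⟨0, by simp⟩
  | succ u ih =>
    obtain ⟨n0, h0⟩ := ih
    have h1 : ∃ n1, ∀ n ≥ n1, orac (s n) u = limH s u := by
      by_cases hu : ∃ n, ∃ g ∈ s n, num g = u
      · obtain ⟨n1, g, hg, hg'⟩ := hu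
        refine ⟨n1, fun n hn => ?_⟩
        have h2 : ∃ g ∈ s n, num g = u := ⟨g, (suffix_le hs hn).subset hg, hg'⟩
        have h3 : ∃ n, ∃ g ∈ s n, num g = u := ⟨n1, g, hg, hg'⟩
        unfold orac limH
        rw [if_pos h2, if_pos h3]
      · refine ⟨0, fun n _ => ?_⟩
        have h2 : ¬ ∃ g ∈ s n, num g = u := fun h => hu ⟨n, h⟩
        unfold orac limH
        rw [if_neg h2, if_neg hu]
    obtain ⟨n1, h1⟩ := h1
    refine ⟨max n0 n1, fun n hn m hm => ?_⟩
    rcases Nat.lt_succ_iff_lt_or_eq.1 hm with hm | rfl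
    · exact h0 n (le_trans (le_max_left _ _) hn) m hm
    · exact h1 n (le_trans (le_max_right _ _) hn)

include hs in
theorem exists_common (F : Finset ℕ) (hF : ∀ a ∈ F, limH s a = 1) :
    ∃ n0, ∀ n ≥ n0, ∀ a ∈ F, ∃ g ∈ s n, num g = a := by
  induction F using Finset.induction_on with
  | empty => exact ⟨0, by simp⟩
  | insert a F _ ih =>
    obtain ⟨n0, h0⟩ := ih (fun a ha => hF a (Finset.mem_insert_of_mem ha))
    obtain ⟨n1, g, hg, hg'⟩ := limH_eq_one (hF a (Finset.mem_insert_self _ _))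
    refine ⟨max n0 n1, fun n hn b hb => ?_⟩
    rcases Finset.mem_insert.1 hb with rfl | hb
    · exact ⟨g, (suffix_le hs (le_trans (le_max_right _ _) hn)).subset hg, hg'⟩
    · exact h0 n (le_trans (le_max_left _ _) hn) b hb

/-- from `Sure` to the output -/
theorem Sure.out {Out : (ℕ → ℕ) → ℕ → Prop} {x : ℕ} {P' : Node → Prop} (h : Sure Out x P')
    (hs : ∀ n, s n <:+ s (n + 1)) {n1 : ℕ} (hP : ∀ n ≥ n1, P' (s n)) : Out (limH s) x := by
  obtain ⟨u, σ0, h1, h2⟩ := h
  obtain ⟨n0, h0⟩ := orac_lim hs u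
  refine h1 _ fun m hm => ?_
  rw [← h0 (max n0 n1) (le_max_left _ _) m hm, h2 _ (hP _ (le_max_right _ _)) m hm]

/-- from the negative outcome to the absence of outputs -/
theorem never_out {q : Ultrafilter Blk} {Out : (ℕ → ℕ) → ℕ → Prop} {N : ℕ} {P' : Node → Prop}
    (hcont : ∀ h x, Out h x → ∃ u, ∀ h' : ℕ → ℕ, (∀ m < u, h' m = h m) → Out h' x)
    (h : ∀ τ, P' τ → ¬ Bar q (OutGe Out N) τ)
    (hs : ∀ n, s n <:+ s (n + 1)) {n1 : ℕ} (hP : ∀ n ≥ n1, P' (s n)) :
    ∀ x ≥ N, ¬ Out (limH s) x := by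
  intro x hx hout
  obtain ⟨u, hu⟩ := hcont _ _ hout
  obtain ⟨n0, h0⟩ := orac_lim hs u
  refine h _ (hP (max n0 n1) (le_max_right _ _)) (Bar.base _ ⟨x, hx, u, fun h' hh' => ?_⟩)
  refine hu h' fun m hm => ?_
  rw [hh' m hm, h0 _ (le_max_left _ _) m hm]

end lim

end Pool.Agent.helper79.HT
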